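import Pool.Agent.helper51.RMX.Spec

/-!
# Project rmx (MP_24e2e7_nt): row VLG (after helper66/RB/VL3.lean)
-/

set_option autoImplicit false

namespace Pool.Agent.RMX

open Pool.Agent.RB NumberField IsDedekindDomain Module
open scoped nonZeroDivisors Real Classical IsMulCommutative

theorem VLG_ev {G : Type} [CommGroup G] (ψ : G →* ℂˣ) (y : MonoidAlgebra ℚ G) :
    evQ ψ y = ∑ σ ∈ y.coeff.support, ((y.coeff σ : ℚ) : ℂ) * ((ψ σ : ℂˣ) : ℂ) := by
  have h1 : evQ ψ y = MonoidAlgebra.lift ℚ ℂ G ((Units.coeHom ℂ).comp ψ) y := rfl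
  rw [h1, MonoidAlgebra.lift_apply']
  rfl

theorem VLG_gen {G : Type} [CommGroup G] [Finite G] (m : ℕ) (c : G)
    (χ : G →* ℂˣ) (hm : χ ^ 2 ^ m = 1) (hc : χ c = -1) :
    ∃ (a : ℕ) (s : G), 1 ≤ a ∧ orderOf (χ s) = 2 ^ a ∧ ∀ σ, ∃ i : ℕ, χ σ = χ s ^ i := by
  have hfin : Finite χ.range := by
    have h1 : Function.Surjective χ.rangeRestrict := χ.rangeRestrict_surjective
    exact Finite.of_surjective _ h1
  obtain ⟨⟨ζ, hζ⟩, hgen⟩ := (isCyclic_subgroup_units χ.range).exists_generator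
  obtain ⟨s, rfl⟩ := hζ
  have hord : orderOf (χ s) ∣ 2 ^ m := by
    apply orderOf_dvd_of_pow_eq_one
    have h := DFunLike.congr_fun hm s
    rw [MonoidHom.pow_apply] at h
    exact h
  obtain ⟨a, _, ha⟩ := (Nat.dvd_prime_pow Nat.prime_two).1 hord
  have hpow : ∀ σ, ∃ i : ℕ, χ σ = χ s ^ i := by
    intro σ
    have h1 := hgen ⟨χ σ, ⟨σ, rfl⟩⟩
    obtain ⟨k, hk⟩ := h1
    have h2 : χ s ^ k = χ σ := congrArg Subtype.val hk
    have h3 : χ σ ∈ Subgroup.zpowers (χ s) := ⟨k, h2⟩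
    have h4 : IsOfFinOrder (χ s) := by
      rw [← orderOf_pos_iff, ha]
      positivity
    obtain ⟨i, hi⟩ := h4.mem_powers_iff_mem_zpowers.2 h3
    exact ⟨i, hi.symm⟩
  refine ⟨a, s, ?_, ha, hpow⟩
  rcases Nat.eq_zero_or_pos a with h0 | h0
  · exfalso
    rw [h0, pow_zero, orderOf_eq_one_iff] at ha
    obtain ⟨i, hi⟩ := hpow c
    rw [ha, one_pow, hc] at hi
    have h5 : ((-1 : ℂˣ) : ℂ) = ((1 : ℂˣ) : ℂ) := congrArg Units.val hi
    rw [Units.val_neg, Units.val_one] at h5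
    norm_num at h5
  · exact h0

theorem VLG_neg (j : ℕ) : ((-1 : ℂˣ) ^ j = -1) ↔ Odd j := by
  constructor
  · intro h
    rcases Nat.even_or_odd j with he | ho
    · rw [he.neg_one_pow] at h
      have h5 : ((1 : ℂˣ) : ℂ) = ((-1 : ℂˣ) : ℂ) := congrArg Units.val h
      rw [Units.val_neg, Units.val_one] at h5
      norm_num at h5
    · exact ho
  · intro h
    exact h.neg_one_pow

theorem VLG : VLG_stmt := by
  intro G _ _ c χ hc hm y e z hz
  obtain ⟨m, hm⟩ := hm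
  obtain ⟨a, s, ha, hord, hpow⟩ := VLG_gen m c χ hm hc
  choose i hi using hpow
  set ζ : ℂˣ := χ s with hζ
  have hprim : IsPrimitiveRoot (ζ : ℂ) (2 ^ a) := by
    rw [IsPrimitiveRoot.coe_units_iff, IsPrimitiveRoot.iff_orderOf]
    exact hord
  set N : ℕ := (Psi χ.ker c).card with hN
  let p : Polynomial ℚ := Polynomial.C ((2 : ℚ) / 2 ^ e) *
    (∑ σ ∈ y.coeff.support, Polynomial.C (y.coeff σ) * Polynomial.X ^ i σ) ^ N
  have hp : ∀ j : ℕ, Polynomial.aeval ((ζ : ℂ) ^ j) p = (2 : ℂ) / 2 ^ e * evQ (χ ^ j) y ^ N := by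
    intro j
    rw [VLG_ev]
    simp only [p, map_mul, map_sum, Polynomial.aeval_C, map_pow, Polynomial.aeval_X]
    congr 1
    · simp
    · congr 1
      apply Finset.sum_congr rfl
      intro σ _
      rw [MonoidHom.pow_apply, hi σ, Units.val_pow_eq_pow_val, Units.val_pow_eq_pow_val, ← pow_mul,
        ← pow_mul, mul_comm j (i σ)]
      rfl
  have hmem : ∀ ψ : G →* ℂˣ, ψ ∈ Psi χ.ker c ↔ (∀ b ∈ χ.ker, ψ b = 1) ∧ ψ c = -1 := by
    intro ψ
    unfold Psi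
    rw [Finset.mem_filter]
    exact ⟨fun h => h.2, fun h => ⟨Finset.mem_univ _, h⟩⟩
  have hprod : ∏ j ∈ (Finset.range (2 ^ a)).filter (fun j => Odd j), Polynomial.aeval ((ζ : ℂ) ^ j) p =
      ∏ ψ ∈ Psi χ.ker c, ((2 : ℂ) / 2 ^ e * evQ ψ y ^ N) := by
    apply Finset.prod_nbij (fun j => χ ^ j)
    · intro j hj
      rw [Finset.mem_filter] at hj
      rw [hmem]
      refine ⟨fun b hb => ?_, ?_⟩
      · rw [MonoidHom.pow_apply, MonoidHom.mem_ker.1 hb, one_pow]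
      · rw [MonoidHom.pow_apply, hc]
        exact hj.2.neg_one_pow
    · intro j hj k hk hjk
      have hj' := Finset.mem_filter.1 hj
      have hk' := Finset.mem_filter.1 hk
      have h1 : ζ ^ j = ζ ^ k := by
        have h2 := DFunLike.congr_fun hjk s
        simpa [MonoidHom.pow_apply] using h2
      apply pow_injOn_Iio_orderOf (x := ζ) _ _ h1
      · rw [Set.mem_Iio, hord]
        exact Finset.mem_range.1 hj'.1
      · rw [Set.mem_Iio, hord]
        exact Finset.mem_range.1 hk'.1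
    · intro ψ hψ
      obtain ⟨hψ1, hψ2⟩ := (hmem ψ).1 hψ
      have hs : χ (s ^ (2 ^ a)) = 1 := by
        rw [map_pow, ← hζ, ← hord, pow_orderOf_eq_one]
      have h1 : ψ s ^ (2 ^ a) = 1 := by
        rw [← map_pow]
        exact hψ1 _ (MonoidHom.mem_ker.2 hs)
      have h2 : ((ψ s : ℂˣ) : ℂ) ^ (2 ^ a) = 1 := by
        rw [← Units.val_pow_eq_pow_val, h1, Units.val_one]
      have : NeZero (2 ^ a) := ⟨by positivity⟩
      obtain ⟨j, hj, hj2⟩ := hprim.eq_pow_of_pow_eq_one h2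
      have h3 : ψ s = ζ ^ j := by
        apply Units.ext
        rw [Units.val_pow_eq_pow_val]
        exact hj2.symm
      have h4 : χ ^ j = ψ := by
        ext σ
        have h5 : σ * (s ^ i σ)⁻¹ ∈ χ.ker := by
          rw [MonoidHom.mem_ker, map_mul, map_inv, map_pow, hi σ, mul_inv_cancel]
        have h6 := hψ1 _ h5
        rw [map_mul, map_inv, map_pow, mul_inv_eq_one] at h6
        rw [h6, h3, MonoidHom.pow_apply, hi σ, ← pow_mul, ← pow_mul, mul_comm]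
      refine ⟨j, ?_, h4⟩
      rw [Finset.mem_coe, Finset.mem_filter, Finset.mem_range]
      refine ⟨hj, ?_⟩
      have h7 : (χ ^ j) c = -1 := by rw [h4, hψ2]
      rw [MonoidHom.pow_apply, hc] at h7
      exact (VLG_neg j).1 h7
    · intro j _
      exact hp j
  rw [Finset.prod_mul_distrib, Finset.prod_const, Finset.prod_pow, ← hN, ← mul_pow] at hprod
  have h2 : ((2 : ℂ) ^ e) ≠ 0 := pow_ne_zero _ two_ne_zero
  have hz2 : (2 : ℂ) / 2 ^ e * ∏ ψ ∈ Psi χ.ker c, evQ ψ y = (z : ℂ) := by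
    rw [div_mul_eq_mul_div, div_eq_iff h2, hz]
    ring
  have hz3 : ((z : ℂ)) ^ N = ((z ^ N : ℤ) : ℂ) := by push_cast; rfl
  rw [hz2, hz3] at hprod
  obtain ⟨d, hd, hint⟩ := CY2 a ζ ha hprim p _ hprod
  refine ⟨d, hd, ?_⟩
  have h3 := hp 1
  have h5 : χ ^ 1 = χ := by
    ext σ
    rw [MonoidHom.pow_apply, pow_one]
  rw [pow_one, h5] at h3
  rw [h3] at hint
  have h4 : 2 * evQ χ y ^ N / 2 ^ e = (2 : ℂ) / 2 ^ e * evQ χ y ^ N := by ring
  rw [h4]
  exact hint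

end Pool.Agent.RMX
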