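import Pool.Agent.helper59.RMX.PRJ
import Pool.Agent.helper72.RMX.CYX
import Pool.Agent.helper41.RMX.PSX
import Pool.Agent.helper32.RMX.VLX
import Pool.Agent.helper8.RMX.MDX
import Pool.Agent.helper72.RMX.EBX
import Pool.Agent.helper10.RMX.DEX
import Pool.Agent.helper97.RMX.CHX
import Pool.Agent.helper71.RMX.EPX
import Pool.Agent.helper93.RMX.COX
import Pool.Agent.helper2.RMX.CEX
import Pool.Agent.helper51.RMX.VLG
import Pool.Agent.helper51.RMX.CHG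
import Pool.Agent.helper51.RMX.CFG
import Pool.Agent.helper72.RMX.KPL
import Pool.Agent.helper40.RMX.PEX
import Pool.Agent.helper45.RMX.RSX
import Pool.Agent.helper17.RMX.SRJ
import Pool.Agent.helper88.RMX.IAX
import Pool.Agent.helper64.RMX.IBX
import Pool.Agent.helper87.RMX.IXX
import Pool.Agent.helper1.RMX.RMK
import Pool.Agent.helper88.RMX.EXF
import Pool.Agent.helper59.RMX.DCX
import Pool.Agent.helper1.RMX.NDV
import Pool.Agent.helper59.RMX.VWX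
import Pool.Agent.helper2.RMX.IVX
import Pool.Agent.helper74.RMX.RMT
import Pool.Agent.helper78.RMX.UNX
import Pool.Agent.helper74.RMX.SIN
import Pool.Agent.helper55.RMX.CM1
import Pool.Agent.helper87.RMX.TWX
import Pool.Agent.helper29.RMX.PSN
import Pool.Agent.helper3.RMX.CM2
import Pool.Agent.helper28.RMX.IDW
import Pool.Agent.helper64.RMX.CFX
import Pool.Agent.helper74.RMX.FNX

/-!
# Project rmx (MP_24e2e7_nt): assembly

All rows of the project are put together; `fin_mixed` is the restatement of the final row over the ring `QGr`, with a simpler inequality.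
-/

set_option autoImplicit false

namespace Pool.Agent.RMX

open Pool.Agent.RB NumberField IsDedekindDomain Module
open scoped nonZeroDivisors Real Classical IsMulCommutative

theorem x_vlx : VLX_stmt := VLX CYX PSX
theorem x_dex : DEX_stmt := DEX MDX EBX
theorem x_chx : CHX_stmt := CHX x_dex
theorem x_cex : CEX_stmt := CEX COX
theorem x_chg : CHG_stmt := CHG VLG
theorem x_cfg : CFG_stmt := CFG x_chg
theorem x_iax : IAX_stmt := IAX RSX SRJ
theorem x_ixx : IXX_stmt := IXX x_iax IBX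
theorem x_exf : EXF_stmt := EXF KPL PEX x_ixx RMK
theorem x_ivx : IVX_stmt := IVX NDV
theorem x_cm1 : CM1_stmt := CM1 x_exf DCX NDV x_ivx VWX RMT SIN
theorem x_cm2 : CM2_stmt := CM2 x_cm1 UNX PSN
theorem x_idw : IDW_stmt := IDW EPX NDV
theorem x_cfx : CFX_stmt := CFX x_chx x_vlx PSX EPX TWX x_cm2 x_idw
theorem x_fnx : FNX_stmt := FNX x_cfg x_cfx x_cex PRJ

theorem x_dvd (a m l i Q : ℕ) (hl : Odd l) (hQ : Odd Q) (h1 : a ∣ 2 ^ i * Q) (h2 : a ∣ 2 ^ m * l) (h0 : a ≠ 0) : a ∣ 2 ^ m * Q := by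
  obtain ⟨s, t, ht, rfl⟩ := Nat.exists_eq_two_pow_mul_odd h0
  have e1 : 2 ^ s ∣ 2 ^ m := by
    have h3 : 2 ^ s ∣ 2 ^ m * l := (Dvd.intro _ rfl).trans h2
    exact (Nat.Coprime.dvd_of_dvd_mul_right (Nat.Coprime.pow_left s (Nat.coprime_two_left.2 hl)) h3)
  have e2 : t ∣ Q := by
    have h3 : t ∣ 2 ^ i * Q := (Dvd.intro_left _ rfl).trans h1
    exact (Nat.Coprime.dvd_of_dvd_mul_left (Nat.Coprime.pow_right i (Nat.coprime_two_right.2 ht)) h3)
  exact mul_dvd_mul e1 e2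

theorem fin_mixed (F H : Type) [Field F] [NumberField F] [Field H] [NumberField H] [Algebra F H]
    [IsAbelianGalois F H] [IsTotallyReal F] [IsCMField H] (r : ℕ) (hr : 1 ≤ r) (D : RData F H r) (m l : ℕ)
    (hm : Nat.card (H ≃ₐ[F] H) = 2 ^ m * l) (hl : Odd l) (q b : ℕ) (hq : q.Prime) (hq2 : q ≠ 2)
    (hord : orderOf (2 : ZMod (q ^ b)) = Nat.totient (q ^ b)) (hexp : ∀ g : H ≃ₐ[F] H, ∃ i : ℕ, g ^ (2 ^ i * q ^ b) = 1)
    (W N : Type) [AddCommGroup W] [Module (QGr F H) W] [AddCommGroup N] [Module (QGr F H) N] (ι : UU D → W) (hι : IsQU D ι)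
    (j : N →ₗ[QGr F H] W) (hj : IsMinus D.c j) (u : EP (QGr F H) N r) (hu : IsRBS D ι j u) :
    (∀ (h k : ℕ) (g₀ : H ≃ₐ[F] H), g₀ ^ 2 ^ h = D.c → m + (if D.S = ∅ then 1 else 0) ≤ finrank ℚ F + h + k →
      ∃ d : ℕ, Odd d ∧ nsm (d * 2 ^ k) u ∈ RubinL D ι j) ∧
    ((∃ g₀ : H ≃ₐ[F] H, orderOf g₀ = 2 ^ m) → ∃ d : ℕ, Odd d ∧ nsm d u ∈ RubinL D ι j) := by
  obtain ⟨o, ho, Lf, hL, hΘ⟩ := hu
  let mW : Module (MonoidAlgebra ℚ (H ≃ₐ[F] H)) W := (inferInstance : Module (QGr F H) W)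
  let mN : Module (MonoidAlgebra ℚ (H ≃ₐ[F] H)) N := (inferInstance : Module (QGr F H) N)
  let ι' : Additive (Ut F H (D.T : Set (HOS F)) (Set.range D.v)) →+ W :=
    AddMonoidHom.mk' (fun x => ι (Additive.toMul x)) (fun x y => hι.mul _ _)
  have hι' : isQU (F := F) (Ut F H (D.T : Set (HOS F)) (Set.range D.v)) ι' :=
    ⟨fun σ x y h => hι.equiv σ x y h, fun w => hι.denom w, fun x h => hι.ker x h⟩
  let jN : N →ₗ[MonoidAlgebra ℚ (H ≃ₐ[F] H)] W := j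
  let j' : N →ₗ[MonoidAlgebra ℚ (H ≃ₐ[F] H)] Wm D.c W :=
    LinearMap.codRestrict (Wm D.c W) jN (fun x => (hj.2 (j x)).1 ⟨x, rfl⟩)
  have key : ∀ (f : Fin r → W →ₗ[MonoidAlgebra ℚ (H ≃ₐ[F] H)] MonoidAlgebra ℚ (H ≃ₐ[F] H)) (x : ⋀[MonoidAlgebra ℚ (H ≃ₐ[F] H)]^r N),
      DT (fun i => (f i).comp (Wm D.c W).subtype) (exteriorPower.map r j' x) = DT (fun i => (f i).comp jN) x := by
    intro f x
    rw [fin_DT_map]
    rfl
  let o' : Fin r → W →ₗ[MonoidAlgebra ℚ (H ≃ₐ[F] H)] MonoidAlgebra ℚ (H ≃ₐ[F] H) := o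
  let u' : ⋀[MonoidAlgebra ℚ (H ≃ₐ[F] H)]^r N := u
  obtain ⟨h1, h2⟩ := x_fnx F H r hr D m l hm hl q b hq hq2 hord hexp Lf hL (detm o j u) hΘ W ι' hι' o' (fun i x => ho i x)
    (exteriorPower.map r j' u') (key o' u')
  have back : ∀ n : ℕ, n • (exteriorPower.map r j' u') ∈ RL D.c W ι' r → nsm n u ∈ RubinL D ι j := by
    intro n hn f hf
    let f' : Fin r → W →ₗ[MonoidAlgebra ℚ (H ≃ₐ[F] H)] MonoidAlgebra ℚ (H ≃ₐ[F] H) := f
    obtain ⟨y, hy⟩ := hn f' (fun i x => hf i x)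
    rw [← map_nsmul (exteriorPower.map r j')] at hy
    exact ⟨y, (key f' (n • u')).symm.trans hy⟩
  refine ⟨fun h k g₀ hg hS => ?_, fun hc => (h2 hc).imp fun d hd => ⟨hd.1, back _ hd.2⟩⟩
  have hexp' : ∀ g : H ≃ₐ[F] H, g ^ (2 ^ m * q ^ b) = 1 := by
    intro g
    obtain ⟨i, hi⟩ := hexp g
    apply orderOf_dvd_iff_pow_eq_one.1
    have hQ : Odd (q ^ b) := (hq.odd_of_ne_two hq2).pow
    exact x_dvd _ m l i _ hl hQ (orderOf_dvd_of_pow_eq_one hi) (hm ▸ orderOf_dvd_natCard g) (orderOf_pos g).ne'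
  refine (h1 m h k g₀ hexp' hg ?_ ?_ ?_).imp fun d hd => ⟨hd.1, back _ hd.2⟩
  · intro hS0
    rw [if_pos hS0] at hS
    exact hS
  · intro hS0
    rw [if_neg hS0, add_zero] at hS
    have e1 : m * 2 ^ (m - 1) ≤ (finrank ℚ F + h + k) * 2 ^ (m - 1) := Nat.mul_le_mul_right _ hS
    have e2 : 1 ≤ D.S.card := Finset.card_pos.2 (Finset.nonempty_iff_ne_empty.2 hS0)
    have e3 : 1 ≤ 2 ^ (m - 1 - h) := Nat.one_le_two_pow
    omega
  · intro _
    exact (Nat.le_add_right _ _).trans hS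

end Pool.Agent.RMX
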