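import Pool.Agent.helper51.RMX.Spec

/-!
# Project rmx (MP_24e2e7_nt): row CHG (after helper46/RB/CH2.lean)
-/

set_option autoImplicit false

namespace Pool.Agent.RMX

open Pool.Agent.RB NumberField IsDedekindDomain Module
open scoped nonZeroDivisors Real Classical IsMulCommutative

theorem CHG_ev {G : Type} [Group G] (ψ : G →* ℂˣ) (y : MonoidAlgebra ℤ G) :
    evQ ψ (zq y) = evZ ψ y := by
  have h : (evQ ψ).comp (zq (G := G)) = evZ ψ := by
    refine MonoidAlgebra.ringHom_ext (fun n => ?_) (fun g => ?_)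
    · unfold evQ evZ zq
      simp [MonoidAlgebra.lift_single]
    · unfold evQ evZ zq
      simp [MonoidAlgebra.lift_single]
  exact congrArg (fun t : MonoidAlgebra ℤ G →+* ℂ => t y) h

theorem CHG (hVLG : VLG_stmt) : CHG_stmt := by
  have hRAT : RAT_stmt := RAT
  have hDET : DET_stmt := fin_det
  intro G _ _ c hcc χ hχ hm U _ s M r β φ hsM hβ hφ hβE hinj hI W _ _ ι o f hι ho hf hW u e z hz
  have hcB : c ∉ χ.ker := by
    intro h
    rw [MonoidHom.mem_ker, hχ] at h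
    have h1 : ((-1 : ℂˣ) : ℂ) = ((1 : ℂˣ) : ℂ) := by rw [h]
    rw [Units.val_neg, Units.val_one] at h1
    norm_num at h1
  obtain ⟨x, ε, hxM, hβx, hε, hdet⟩ := hDET G χ.ker c hcc hcB U s M r β hsM hβ hβE hinj hI
  obtain ⟨z1, hz1⟩ := hdet φ hφ
  have hsc : ∀ j, s c (x j) = -(x j) := by
    intro j
    have h0 : s c (x j) + x j = 0 := by
      refine hinj _ (M.add_mem (hsM c _ (hxM j)) (hxM j)) (fun i => ?_)
      rw [map_add, hβ, (hβE i _ (hxM j)).2, neg_add_cancel]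
    exact eq_neg_of_add_eq_zero_left h0
  have hXm : ∀ j, ι (x j) ∈ Wm c W := by
    intro j
    change (MonoidAlgebra.single c 1 : MonoidAlgebra ℚ G) • ι (x j) = -ι (x j)
    rw [← hι, hsc, map_neg]
  set o' : Fin r → (Wm c W) →ₗ[MonoidAlgebra ℚ G] MonoidAlgebra ℚ G :=
    fun j => (o j).comp (Wm c W).subtype with ho'
  set f' : Fin r → (Wm c W) →ₗ[MonoidAlgebra ℚ G] MonoidAlgebra ℚ G :=
    fun j => (f j).comp (Wm c W).subtype with hf'
  have hR := hRAT (MonoidAlgebra ℚ G) (Wm c W) r o' f' (fun j => ⟨ι (x j), hXm j⟩) (zq ε)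
    (by
      intro i j
      have h1 : o' i ⟨ι (x j), hXm j⟩ = o i (ι (x j)) := rfl
      rw [h1, ho, hβx]
      split_ifs
      · rfl
      · exact map_zero _)
    (by
      intro w hw
      have h1 : (w : W) = 0 := hW w w.2 (fun j => hw j)
      exact Subtype.ext h1) u
  have hψ : ∀ ψ : G →* ℂˣ, (evZ ψ ε) ^ r * evQ ψ (DT f' u) =
      Matrix.det (fun i j => evZ ψ (φ i (x j))) * evQ ψ (DT o' u) := by
    intro ψ
    have h1 := congrArg (evQ ψ) hR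
    rw [map_mul, map_mul, map_pow, CHG_ev, RingHom.map_det] at h1
    rw [h1]
    congr 2
    ext i j
    have h2 : f' i ⟨ι (x j), hXm j⟩ = f i (ι (x j)) := rfl
    have h3 : ((evQ ψ).mapMatrix (fun i j => f' i ⟨ι (x j), hXm j⟩)) i j =
      evQ ψ (f' i ⟨ι (x j), hXm j⟩) := rfl
    rw [h3, h2, hf, CHG_ev]
  have hprod : (∏ ψ ∈ Psi χ.ker c, (evZ ψ ε) ^ r) * ∏ ψ ∈ Psi χ.ker c, evQ ψ (DT f' u) =
      (∏ ψ ∈ Psi χ.ker c, Matrix.det (fun i j => evZ ψ (φ i (x j)))) *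
        ∏ ψ ∈ Psi χ.ker c, evQ ψ (DT o' u) := by
    rw [← Finset.prod_mul_distrib, ← Finset.prod_mul_distrib]
    exact Finset.prod_congr rfl fun ψ _ => hψ ψ
  refine hVLG G c χ hχ hm (DT f' u) e (z1 * z) ?_
  set I : ℂ := ((M.map (AddMonoidHom.pi β)).relIndex
    (AddSubgroup.pi Set.univ (fun _ : Fin r => Elat χ.ker c)) : ℂ) with hIdef
  have hI0 : I ≠ 0 := by
    rw [hIdef]
    exact_mod_cast hI
  have hE0 : (∏ ψ ∈ Psi χ.ker c, (evZ ψ ε) ^ r) ≠ 0 :=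
    Finset.prod_ne_zero_iff.2 fun ψ h => pow_ne_zero _ (hε ψ h)
  refine mul_left_cancel₀ (mul_ne_zero hE0 hI0) ?_
  push_cast
  calc (∏ ψ ∈ Psi χ.ker c, (evZ ψ ε) ^ r) * I * (2 * ∏ ψ ∈ Psi χ.ker c, evQ ψ (DT f' u))
      = I * 2 * ((∏ ψ ∈ Psi χ.ker c, (evZ ψ ε) ^ r) *
          ∏ ψ ∈ Psi χ.ker c, evQ ψ (DT f' u)) := by ring
    _ = (I * ∏ ψ ∈ Psi χ.ker c, Matrix.det (fun i j => evZ ψ (φ i (x j)))) *
          (2 * ∏ ψ ∈ Psi χ.ker c, evQ ψ (DT o' u)) := by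
        rw [hprod]
        ring
    _ = ((z1 : ℂ) * ∏ ψ ∈ Psi χ.ker c, (evZ ψ ε) ^ r) *
          (2 ^ e * (z : ℂ) * I) := by
        rw [hz1, hz]
    _ = (∏ ψ ∈ Psi χ.ker c, (evZ ψ ε) ^ r) * I *
          (2 ^ e * ((z1 : ℂ) * (z : ℂ))) := by ring

end Pool.Agent.RMX
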