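import Pool.Agent.helper91.RB.Fin2

/-!
# Project rmx (MP_24e2e7_nt): Rubin's integrality at 2 for extensions of mixed degree. Definitions

All objects of `Pool/Agent/helper91/RB` are used. New: `Rm c` = the primes of `K` on whose residue fields `c` acts trivially (for `c` = complex conjugation: the primes ramified in `K/K⁺`);
`Nd Δ` = the norm `∑_{δ ∈ Δ} δ` on divisors; `PsN B B' c` = the odd characters trivial on `B` and not trivial on `B'`; `ElX X`, `ECX X` = the elements of `ℤ[G]`, `ℂ[G]` killed by all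
characters outside `X`.
-/

set_option autoImplicit false
set_option linter.unusedSectionVars false

namespace Pool.Agent.RMX

open Pool.Agent.RB NumberField IsDedekindDomain Module
open scoped nonZeroDivisors Real Classical IsMulCommutative

section defs

/-- the primes `P` of `K` such that `c x ≡ x` modulo `P` for all integral `x` -/
def Rm {K : Type} [Field K] [NumberField K] (c : K ≃+* K) : Set (HOS K) :=
  {P | ∀ x : 𝓞 K, P.valuation K (c (x : K) - (x : K)) < 1}

/-- the norm `∑_{δ ∈ Δ} δ` on divisors -/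
noncomputable def Nd {F K : Type} [Field F] [NumberField F] [Field K] [NumberField K] [Algebra F K]
    (Δ : Subgroup (K ≃ₐ[F] K)) : Dv K →+ Dv K :=
  ∑ δ : Δ, Finsupp.mapDomain.addMonoidHom (act (((δ : K ≃ₐ[F] K) : K ≃+* K)))

/-- the characters trivial on `B`, not trivial on `B'`, with `ψ c = -1` -/
noncomputable def PsN {G : Type} [Group G] [Finite G] (B B' : Subgroup G) (c : G) : Finset (G →* ℂˣ) :=
  Psi B c \ Psi B' c

/-- the elements of `ℤ[G]` killed by all characters outside `X` -/
def ElX {G : Type} [Group G] (X : Finset (G →* ℂˣ)) : AddSubgroup (MonoidAlgebra ℤ G) where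
  carrier := {y | ∀ ψ, ψ ∉ X → evZ ψ y = 0}
  zero_mem' := fun ψ _ => map_zero _
  add_mem' := fun {x y} hx hy ψ hψ => by rw [map_add, hx ψ hψ, hy ψ hψ, add_zero]
  neg_mem' := fun {x} hx ψ hψ => by rw [map_neg, hx ψ hψ, neg_zero]

/-- the same over `ℂ` -/
def ECX {G : Type} [Group G] (X : Finset (G →* ℂˣ)) : Submodule ℂ (MonoidAlgebra ℂ G) where
  carrier := {y | ∀ ψ, ψ ∉ X → evC ψ y = 0}
  zero_mem' := fun ψ _ => map_zero _
  add_mem' := fun {x y} hx hy ψ hψ => by rw [map_add, hx ψ hψ, hy ψ hψ, add_zero]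
  smul_mem' := fun a x hx ψ hψ => by
    have h1 : evC ψ (a • x) = a • evC ψ x :=
      map_smul (MonoidAlgebra.lift ℂ ℂ G ((Units.coeHom ℂ).comp ψ) : MonoidAlgebra ℂ G →ₐ[ℂ] ℂ) a x
    rw [h1, hx ψ hψ, smul_zero]

end defs

/-! Rows of the rb project with their hypotheses discharged -/

theorem r_orz : ORZ_stmt := ORZ ORD
theorem r_inj : INJ_stmt := INJ ORD fin_spl (ORZ ORD)
theorem r_bor : BOR_stmt := BOR ORD ARS fin_spl
theorem r_dve : DVE_stmt := DVE ORD VLU fin_spl
theorem r_ltr : LTR_stmt := LTR fin_inf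
theorem r_tck : TCK_stmt := TCK VLU
theorem r_unt : UNT_stmt := UNT TYP VLU
theorem r_krn : KRN_stmt := KRN ORD CCJ
theorem r_res : RES_stmt := RES ORD TYP
theorem r_idb : IDB_stmt := IDB ORD CCJ
theorem r_ida : IDA_stmt := IDA r_krn r_res
theorem r_vl3 : VL3_stmt := VL3 CY2
theorem r_coe : COE_stmt := COE CO1 CO2

end Pool.Agent.RMX
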