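import Pool.Agent.helper51.RMX.Defs

/-!
# Project rmx (MP_24e2e7_nt): Rubin's integrality at 2 for extensions `H/F` whose group is (2-group) x (group of exponent `q^b`, 2 a primitive root modulo `q^b`). The rows

RULES. Row `rmx:XXX` is a file `Pool/Agent/<seat>/RMX/XXX.lean`, namespace `Pool.Agent.RMX`, which imports this file and contains the theorem whose EXACT line is in the lock note. Hypotheses of a row: only
the rows named after `from` in its docstring. ALL rows of the rb project are proved theorems and imported (names `ORD`, `TYP`, `VLU`, `fin_tow`, ... in `Pool/Agent/helper91/RB/Fin2.lean`, `r_ltr`, ... in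
`Defs.lean`; statements in `Pool/Agent/helper91/RB/Spec2.lean` - `Spec6.lean`): use them directly. Their files may be copied and adapted (rename the lemmas with your prefix), their lemmas may be used.
Auxiliary lemmas have the prefix `XXX_`. No `convert`, `congr!`, `native_decide`, no double quotes. The docstring contains a complete proof.

PLAN. For an odd character `χ` of order `2^a q^j`, `j ≥ 1`, let `K` be the fixed field of `ker χ`, `L` that of `ker χ^q`, `Δ = Gal(K/L)` of order `q`. Block B: the class number formula and the ambiguous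
class number formula give an EXACT formula for the product of the `L_T(ψ, 0)` over all odd characters of `K/F`, in terms of the index of `div Ml` in the anti-invariant divisors outside `T`. Block C: divide the
formulas for `K` and `L`: the product over the new characters is `2^(n #new)` times the index of the new part, up to odd factors. Block A: determinants over the group ring; 2 has only one prime above it in
`ℚ(ζ)`, so integrality at 2 of the product (a norm) gives integrality at 2 of each value. Characters of 2-power order are treated as in the rb project.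
-/

set_option autoImplicit false

namespace Pool.Agent.RMX

open Pool.Agent.RB NumberField IsDedekindDomain Module
open scoped nonZeroDivisors Real Classical IsMulCommutative

/-! ### Block A. Algebra -/

/-- **PRJ** (short). If `j = 0` both sides are 1. For `j ≤ b` the ring homomorphism `ZMod (q^b) → ZMod (q^j)` (`ZMod.castHom`) is surjective on units
(`ZMod.unitsMap_surjective`), 2 is a generator of the units of `ZMod (q^b)` (its order is the number of units), so its image generates the units of `ZMod (q^j)`, whose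
number is `totient (q^j)` (`ZMod.card_units_eq_totient`; `orderOf_units`) -/
def PRJ_stmt : Prop := ∀ q b j : ℕ, q.Prime → q ≠ 2 → j ≤ b → orderOf (2 : ZMod (q ^ b)) = Nat.totient (q ^ b) → orderOf (2 : ZMod (q ^ j)) = Nat.totient (q ^ j)

/-- **CYX** (medium). One prime above 2. `N = 2^a q^j`, `L = CyclotomicField N ℚ` (or `ℚ(ζ) ⊂ ℂ`; embed `L` in `ℂ` with a primitive root going to `ζ`). By
`IsCyclotomicExtension.Rat.inertiaDegIn_eq`, `ramificationIdxIn_eq` (with `p = 2`, `m = q^j`, `k = a - 1`) and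
`Ideal.ncard_primesOver_mul_ramificationIdxIn_mul_inertiaDegIn` the number of primes of `𝓞 L` above 2 is `totient N / (2^(a-1) totient (q^j)) = 1`; let `P` be this
prime. Let `α = p(ζ) ∈ L`; if `α = 0` done. All conjugates of `α` (the `p(ζ^i)`, `i` coprime to `N`) have the same valuation at `P`, because an automorphism maps `P` to
a prime above 2, that is to `P`. The product of the conjugates is `z / d`, of valuation `≤ 1` (multiplicative notation) as `d` is odd, i.e. not in `P`. So `P.valuation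
α ≤ 1`. Write `α = β / (2^s d₁)` with `β ∈ 𝓞 L`, `d₁` odd. `γ = β / 2^s = d₁ α` has valuation `≤ 1` at `P` and at all other primes (2 is a unit there), so it is
integral (`HeightOneSpectrum.mem_integers_of_valuation_le_one`) -/
def CYX_stmt : Prop := ∀ (a j q : ℕ) (ζ : ℂ), 1 ≤ a → q.Prime → q ≠ 2 → orderOf (2 : ZMod (q ^ j)) = Nat.totient (q ^ j) → IsPrimitiveRoot ζ (2 ^ a * q ^ j) → ∀ (p :
  Polynomial ℚ) (z : ℤ) (d : ℕ), Odd d → (d : ℂ) * ∏ i ∈ (Finset.range (2 ^ a * q ^ j)).filter (fun i => Nat.Coprime i (2 ^ a * q ^ j)), Polynomial.aeval (ζ ^ i) p =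
  (z : ℂ) → ∃ d' : ℕ, Odd d' ∧ IsIntegral ℤ ((d' : ℂ) * Polynomial.aeval ζ p)

/-- **PSX** (medium). `N = 2^a q^j`, `B = ker χ`, `B' = ker (χ^q)`. `G / B` is cyclic of order `N` (`χ` identifies it with the `N`-th roots of unity), so the characters
trivial on `B` are the `χ^i`, `0 ≤ i < N` (compare: for the rb project see the proof of VL2, `Pool/Agent/helper66/RB/VL3.lean`). `χ^i(c) = (-1)^i`, so `Psi B c`
consists of the `χ^i` with `i` odd. `B' ⊇ B`, `B'` is the preimage of the subgroup of order `q` (`j ≥ 1`): `x ∈ B'` iff `χ(x)^q = 1`. `χ^i` is trivial on `B'` iff `χ^i`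
is trivial on the `q`-th roots of unity in the image, iff `q` divides `i` (choose `s` with `χ(s)` of order `N` and `s^(N/q) ∈ B'`, `χ^i(s^(N/q)) = χ(s)^(i N/q) = 1` iff
`q | i`). So `PsN B B' c` = the `χ^i` with `i` odd and prime to `q`. The `i` with `0 ≤ i < N` give different characters. `χ^q (c) = (-1)^q = -1`. `|B'| = q |B|` (`B'/B`
is isomorphic to the `q`-th roots of unity) -/
def PSX_stmt : Prop := ∀ (G : Type) [CommGroup G] [Finite G] (c : G) (χ : G →* ℂˣ) (a j q : ℕ), q.Prime → q ≠ 2 → 1 ≤ a → 1 ≤ j → orderOf χ = 2 ^ a * q ^ j → χ c =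
  -1 → χ.ker ≤ (χ ^ q).ker ∧ c ∉ (χ ^ q).ker ∧ Nat.card (χ ^ q).ker = q * Nat.card χ.ker ∧ ∀ g : (G →* ℂˣ) → ℂ, ∏ ψ ∈ PsN χ.ker (χ ^ q).ker c, g ψ = ∏ i ∈
  (Finset.range (2 ^ a * q ^ j)).filter (fun i => Nat.Coprime i (2 ^ a * q ^ j)), g (χ ^ i)

/-- **VLX** (short to medium; from CYX, PSX). `N = 2^a q^j`. The image of `χ` is the group of the `N`-th roots of unity; let `s₀` with `χ s₀ = ζ` of order `N`, `χ σ =
ζ^(i(σ))` for `σ ∈ G`, and `p = 2^(-n) ∑_σ y_σ X^(i(σ)) ∈ ℚ[X]`. Then `p(ζ^i) = evQ (χ^i) y / 2^n`. By PSX the hypothesis is `d ∏_i p(ζ^i) = z` (the number of factors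
is the cardinality of `PsN`; take `g = fun _ => 2^n` in PSX, or divide each factor). CYX -/
def VLX_stmt : Prop := ∀ (G : Type) [CommGroup G] [Finite G] (c : G) (χ : G →* ℂˣ) (a j q : ℕ), q.Prime → q ≠ 2 → 1 ≤ a → 1 ≤ j → orderOf χ = 2 ^ a * q ^ j → χ c =
  -1 → orderOf (2 : ZMod (q ^ j)) = Nat.totient (q ^ j) → ∀ (y : MonoidAlgebra ℚ G) (n d : ℕ) (z : ℤ), Odd d → (d : ℂ) * ∏ ψ ∈ PsN χ.ker (χ ^ q).ker c, evQ ψ y = (2
  ^ n) ^ (PsN χ.ker (χ ^ q).ker c).card * (z : ℂ) → ∃ d' : ℕ, Odd d' ∧ IsIntegral ℤ ((d' : ℂ) * (evQ χ y / 2 ^ n))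

/-- **MDX** (medium). As MDT of the rb project (adapt `Pool/Agent/helper56/RB/MDT.lean`; `EC B c` is replaced by `ECX X`, `Psi B c` by `X`). `ECX X` has the basis `e_ψ =
∑_σ ψ(σ)⁻¹ σ`, `ψ ∈ X`: `ψ'(e_ψ) = 0` for `ψ' ≠ ψ` (orthogonality), `y e_ψ = ψ(y) e_ψ`, and `y = (1/|G|) ∑_ψ ψ(y) e_ψ` for all `y`. In the basis (`e_ψ` at the place
`j`) the matrix of `Φ` is block diagonal with the blocks `ψ(A)` -/
def MDX_stmt : Prop := ∀ (G : Type) [CommGroup G] [Finite G] (X : Finset (G →* ℂˣ)) (r : ℕ) (A : Matrix (Fin r) (Fin r) (MonoidAlgebra ℂ G)) (Φ : (Fin r → ECX X)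
  →ₗ[ℂ] (Fin r → ECX X)), (∀ (y : Fin r → ECX X) (i : Fin r), ((Φ y i : ECX X) : MonoidAlgebra ℂ G) = ∑ j, A i j * ((y j : ECX X) : MonoidAlgebra ℂ G)) →
  LinearMap.det Φ = ∏ ψ ∈ X, Matrix.det (fun i j => evC ψ (A i j))

/-- **EBX** (medium). An integral basis. `ElX X` is a subgroup of the free abelian group `ℤ[G]` of finite rank, so it is free; let `b` be a `ℤ`-basis of `ElX X`, mapped
to `ECX X` by `zc` (`evC ψ (zc y) = evZ ψ y`). It spans `ECX X` over `ℂ`: for `y ∈ ECX X`, `ε y = N y` (all characters agree: `ψ ∈ X` gives `N ψ(y)`, `ψ ∉ X` gives 0;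
characters separate `ℂ[G]`), so `y = N⁻¹ ε y` and `ε y = ∑_σ y_σ zc(ε σ)` with `ε σ ∈ ElX X`. It is linearly independent over `ℂ`: it is so over `ℤ` in the free module
`ℤ[G]`, hence over `ℚ`, and vectors of `ℚ^n` independent over `ℚ` are independent over `ℂ` (`LinearIndependent.of_...`/matrix rank, e.g.
`LinearIndependent.map'`+`Basis` change, or: dimension count: the number of basis vectors is the rank of `ElX X`, at most the dimension of the `ℚ`-space `{y ∈ ℚ[G] :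
ψ(y) = 0 for ψ ∉ X}`). The last claim: a complex combination of the basis which is the image of an element `x` of `ElX X` has integral coefficients by independence -/
def EBX_stmt : Prop := ∀ (G : Type) [CommGroup G] [Finite G] (X : Finset (G →* ℂˣ)) (ε : MonoidAlgebra ℤ G) (N : ℤ), N ≠ 0 → (∀ ψ ∈ X, evZ ψ ε = (N : ℂ)) → (∀ ψ, ψ ∉
  X → evZ ψ ε = 0) → ∃ (ι : Type) (_ : Fintype ι) (b : Basis ι ℂ (ECX X)), ∀ y : ECX X, y ∈ AddSubgroup.closure (Set.range b) ↔ ∃ x ∈ ElX X, zc x = (y :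
  MonoidAlgebra ℂ G)

/-- **DEX** (medium; from MDX, EBX). As DET of the rb project (adapt `Pool/Agent/helper70/RB/DET.lean`; the proved row `LDT` of RB may be used). `ε y = N y` for `y ∈ ElX
X` (characters separate `ℤ[G]`). For `a = ∑ a_g g ∈ ℤ[G]` put `a x = ∑ a_g s_g(x)`; `β_j(a x) = a β_j(x)`, the same for `φ`. Let `I` be the index and `e = I ε`; as `I`
kills `ElX^r / β(M)` there are `x_j ∈ M` with `β_i(x_j) = δ_ij e`; `ψ(e) = I N ≠ 0` for `ψ ∈ X`. For `x ∈ M`: `e x = ∑_j β_j(x) x_j` (apply `β`, injective on `M`), so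
`e φ_i(x) = ∑_j β_j(x) φ_i(x_j)`. `ε x = N x` in `M` (apply `β`), so `ε φ_i(x) = N φ_i(x)`, which gives `ψ(φ_i(x)) = 0` for `ψ ∉ X`: `φ_i(x) ∈ ElX X`, and `φ_i(x) = ∑_j
A_ij β_j(x)` in `ℂ[G]` with `A_ij = φ_i(x_j) / (I N)`. So multiplication by `A` on `ECX^r` maps the lattice `β(M)` into `ElX^r`; LDT (basis from EBX) and MDX: `I ∏_{ψ ∈
X} det (ψ(φ_i(x_j)) / (I N))` is an integer -/
def DEX_stmt : Prop := ∀ (G : Type) [CommGroup G] [Finite G] (X : Finset (G →* ℂˣ)) (ε : MonoidAlgebra ℤ G) (N : ℤ), N ≠ 0 → (∀ ψ ∈ X, evZ ψ ε = (N : ℂ)) → (∀ ψ, ψ ∉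
  X → evZ ψ ε = 0) → ∀ (U : Type) [AddCommGroup U] (s : G → U →+ U) (M : AddSubgroup U) (r : ℕ) (β : Fin r → U →+ MonoidAlgebra ℤ G), (∀ g, ∀ u ∈ M, s g u ∈ M) → (∀
  j g u, β j (s g u) = MonoidAlgebra.single g 1 * β j u) → (∀ j, ∀ u ∈ M, β j u ∈ ElX X) → (∀ u ∈ M, (∀ j, β j u = 0) → u = 0) → (M.map (AddMonoidHom.pi β)).relIndex
  (AddSubgroup.pi Set.univ (fun _ : Fin r => ElX X)) ≠ 0 → ∃ (x : Fin r → U) (e : MonoidAlgebra ℤ G), (∀ j, x j ∈ M) ∧ (∀ i j, β i (x j) = if i = j then e else 0) ∧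
  (∀ ψ ∈ X, evZ ψ e ≠ 0) ∧ ∀ φ : Fin r → U →+ MonoidAlgebra ℤ G, (∀ i g u, φ i (s g u) = MonoidAlgebra.single g 1 * φ i u) → ∃ z : ℤ, ((M.map (AddMonoidHom.pi
  β)).relIndex (AddSubgroup.pi Set.univ (fun _ : Fin r => ElX X)) : ℂ) * ∏ ψ ∈ X, Matrix.det (fun i j => evZ ψ (φ i (x j))) = (z : ℂ) * ∏ ψ ∈ X, (evZ ψ e) ^ r

/-- **CHX** (short to medium; from DEX). As the first half of CH2 of the rb project (adapt `Pool/Agent/helper46/RB/CH2.lean`, without its last step). DEX for `φ_i`. The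
proved row `RAT` of RB for `R = ℚ[G]`, `Wm c W`, the restrictions of `o`, `f`, the elements `ι(x_j)` and `zq e` (`ι(x_j) ∈ Wm`: for `y ∈ ElX X` one has `c y = - y`,
since all `ψ ∈ X` have `ψ c = -1`; so `β_i(s_c x_j + x_j) = 0` and `s_c x_j = - x_j`): `(zq e)^r DT f u = det (f_i(ι x_j)) DT o u`. Apply `evQ ψ` for `ψ ∈ X` (`evQ ψ
(zq y) = evZ ψ y`) and multiply: `∏ ψ(e)^r ∏ ψ(DT f u) = ∏ det (ψ φ_i(x_j)) ∏ ψ(DT o u)`. Multiply by `d` and the index `I` (`≠ 0`) and use the hypothesis and DEX: `I ∏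
ψ(e)^r d ∏ ψ(DT f u) = z₁ ∏ ψ(e)^r (2^n)^#X z I`; cancel -/
def CHX_stmt : Prop := ∀ (G : Type) [CommGroup G] [Finite G] (c : G), c * c = 1 → ∀ (X : Finset (G →* ℂˣ)) (ε : MonoidAlgebra ℤ G) (N : ℤ), N ≠ 0 → (∀ ψ ∈ X, ψ c =
  -1 ∧ evZ ψ ε = (N : ℂ)) → (∀ ψ, ψ ∉ X → evZ ψ ε = 0) → ∀ (U : Type) [AddCommGroup U] (s : G → U →+ U) (M : AddSubgroup U) (r : ℕ) (β φ : Fin r → U →+ MonoidAlgebra
  ℤ G), (∀ g, ∀ u ∈ M, s g u ∈ M) → (∀ j g u, β j (s g u) = MonoidAlgebra.single g 1 * β j u) → (∀ j g u, φ j (s g u) = MonoidAlgebra.single g 1 * φ j u) → (∀ j, ∀ u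
  ∈ M, β j u ∈ ElX X) → (∀ u ∈ M, (∀ j, β j u = 0) → u = 0) → (M.map (AddMonoidHom.pi β)).relIndex (AddSubgroup.pi Set.univ (fun _ : Fin r => ElX X)) ≠ 0 → ∀ (W :
  Type) [AddCommGroup W] [Module (MonoidAlgebra ℚ G) W] (ι : U →+ W) (o f : Fin r → W →ₗ[MonoidAlgebra ℚ G] MonoidAlgebra ℚ G), (∀ g u, ι (s g u) =
  (MonoidAlgebra.single g 1 : MonoidAlgebra ℚ G) • ι u) → (∀ j u, o j (ι u) = zq (β j u)) → (∀ j u, f j (ι u) = zq (φ j u)) → (∀ w : W, (MonoidAlgebra.single c 1 :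
  MonoidAlgebra ℚ G) • w = -w → (∀ j, o j w = 0) → w = 0) → ∀ (u : ⋀[MonoidAlgebra ℚ G]^r (Wm c W)) (d n : ℕ) (z : ℤ), (d : ℂ) * ∏ ψ ∈ X, evQ ψ (DT (fun j => (o
  j).comp (Wm c W).subtype) u) = (2 ^ n) ^ X.card * (z : ℂ) * ((M.map (AddMonoidHom.pi β)).relIndex (AddSubgroup.pi Set.univ (fun _ : Fin r => ElX X)) : ℂ) → ∃ z' :
  ℤ, (d : ℂ) * ∏ ψ ∈ X, evQ ψ (DT (fun j => (f j).comp (Wm c W).subtype) u) = (2 ^ n) ^ X.card * (z' : ℂ)

/-- **EPX** (short to medium). `ε = |B'| ∑_{b ∈ B} b (1 - c) - |B| ∑_{b ∈ B'} b (1 - c)`, `N = 2 |B| |B'|`. `ψ(∑_{b ∈ B} b) = |B|` if `ψ` is trivial on `B`, 0 otherwise;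
the same for `B'`; `ψ(1 - c) = 2` if `ψ c = -1`, 0 if `ψ c = 1` (`ψ c = ± 1` as `c² = 1`). `B ≤ B'`, so a character trivial on `B'` is trivial on `B`. Second part:
characters separate `ℤ[G]`. `y ∈ ElX (PsN B B' c)`: for `b ∈ B`, `ψ(b y) = ψ(y)` for all `ψ` (both 0 if `ψ ∉ PsN`), so `b y = y`; `c y = - y`; `ψ(∑_{B'} b · y) = 0` for
all `ψ` (if `ψ ∈ PsN` it is not trivial on `B'`). Conversely `ψ(b) ψ(y) = ψ(y)` for `b ∈ B`, `ψ(c) ψ(y) = - ψ(y)`, `ψ(∑_{B'} b) ψ(y) = 0`: if `ψ(y) ≠ 0` then `ψ` is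
trivial on `B`, `ψ c = -1`, and `ψ` is not trivial on `B'` -/
def EPX_stmt : Prop := ∀ (G : Type) [CommGroup G] [Finite G] (B B' : Subgroup G) (c : G), c * c = 1 → B ≤ B' → (∃ (ε : MonoidAlgebra ℤ G) (N : ℤ), N ≠ 0 ∧ (∀ ψ ∈ PsN
  B B' c, ψ c = -1 ∧ evZ ψ ε = (N : ℂ)) ∧ ∀ ψ, ψ ∉ PsN B B' c → evZ ψ ε = 0) ∧ ∀ y : MonoidAlgebra ℤ G, y ∈ ElX (PsN B B' c) ↔ y ∈ Elat B c ∧ (∑ᶠ b : B',
  MonoidAlgebra.single (b : G) (1 : ℤ)) * y = 0

/-- **COX** (short to medium). As COE of the rb project (adapt `Pool/Agent/helper72/RB/COE.lean`; the proved rows `CO1`, `CO2` of RB are used; `δ = 0`, and `|G| = 2^m l`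
instead of `2^m`). `g₀` has order `2^(h+1)`, so `h + 1 ≤ m`. By CO1 and `|G| 2 / 2^(h+1) = 2^(m-h) l`: `2^(m-h) l ∑_i y_{σ g₀^i} ζ^i = ∑_χ χ(y) χ(σ)⁻¹` (the `χ` with `χ
g₀ = ζ`, all odd). With `d` the product of the odd numbers, `d l 2^(m-h) / 2^n ∑_i y_{σ g₀^i} ζ^i` is an algebraic integer; multiply by a further power of 2 if `m < h +
n` and use CO2, `i = 0`. The odd number is `d l` -/
def COX_stmt : Prop := ∀ (G : Type) [CommGroup G] [Finite G] (m l h : ℕ) (g₀ c : G), Nat.card G = 2 ^ m * l → Odd l → c = g₀ ^ 2 ^ h → c ≠ 1 → c * c = 1 → ∀ (y :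
  MonoidAlgebra ℚ G) (n : ℕ), MonoidAlgebra.single c 1 * y = -y → (∀ χ : G →* ℂˣ, χ c = -1 → ∃ d : ℕ, Odd d ∧ IsIntegral ℤ ((d : ℂ) * (evQ χ y / 2 ^ n))) → ∃ d : ℕ,
  Odd d ∧ ∀ σ : G, ∃ z : ℤ, (d : ℚ) * 2 ^ (m - (h + n)) * y.coeff σ = z

/-- **CEX** (medium; from COX). `O` = the subgroup of the elements of odd order, of order `l` (`G` is the direct product of `O` and its elements of 2-power order; or:
`|O|` is odd and `|G/O|` is a power of 2 by Cauchy). `Ḡ = G/O` has order `2^m` and exponent dividing `2^a`, `c̄ ≠ 1`. Let `ȳ ∈ ℚ[Ḡ]` be the image of `y`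
(`MonoidAlgebra.mapDomain`), `ȳ_{σ̄} = ∑_{τ ∈ O} y_{σ τ}`. The characters `χ̄` of `Ḡ` are the characters `χ` of `G` trivial on `O`, i.e. of 2-power order, `evQ χ̄ ȳ =
evQ χ y`, and `Psi (ker χ̄) c̄` and `Psi (ker χ) c` have the same number of elements (inflation). The proved row `fin_ce2 : CE2_stmt` of RB for `Ḡ`: `d₁ 2^k ȳ_{σ̄} ∈
ℤ`. Let `y₁ = l⁻¹ (∑_{τ ∈ O} τ) y`, with coefficients `l⁻¹ ȳ_{σ̄}`: `l d₁ 2^k (y₁)_σ ∈ ℤ`. If `l = 1` then `y = y₁`. Otherwise let `y₂ = y - y₁`: `χ(y₂) = 0` for `χ`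
trivial on `O` and `χ(y₂) = χ(y)` for the others, which are those not of 2-power order; `c y₂ = - y₂`. COX: `d₂ 2^(m - (h+n)) (y₂)_σ ∈ ℤ` and `m - (h + n) ≤ k`. The odd
number is `l d₁ d₂` -/
def CEX_stmt : Prop := ∀ (G : Type) [CommGroup G] [Finite G] (m l h a : ℕ) (g₀ c : G), Nat.card G = 2 ^ m * l → Odd l → (∀ g : G, ∃ e : ℕ, Odd e ∧ g ^ (2 ^ a * e) =
  1) → c = g₀ ^ 2 ^ h → c ≠ 1 → c * c = 1 → ∀ (y : MonoidAlgebra ℚ G) (n s k : ℕ), MonoidAlgebra.single c 1 * y = -y → (∀ χ : G →* ℂˣ, χ c = -1 → (∃ i : ℕ, χ ^ 2 ^ i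
  = 1) → ∃ d : ℕ, Odd d ∧ IsIntegral ℤ ((d : ℂ) * (2 * evQ χ y ^ (Psi χ.ker c).card / 2 ^ (n * (Psi χ.ker c).card + s)))) → (∀ χ : G →* ℂˣ, χ c = -1 → (¬ ∃ i : ℕ, χ
  ^ 2 ^ i = 1) → ∃ d : ℕ, Odd d ∧ IsIntegral ℤ ((d : ℂ) * (evQ χ y / 2 ^ n))) → (s = 0 → m + 1 ≤ n + h + k) → (s ≠ 0 → m * 2 ^ (a - 1) + 2 ≤ (n + h + k) * 2 ^ (a -
  1) + s + 2 ^ (a - 1 - h)) → (l ≠ 1 → m ≤ n + h + k) → ∃ d : ℕ, Odd d ∧ ∀ σ : G, ∃ z : ℤ, (d : ℚ) * 2 ^ k * y.coeff σ = z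

/-- **VLG** (short). VL3 of the rb project with the hypothesis `Nat.card G = 2^m` replaced by `χ^(2^i) = 1` (so `χ` has order `2^a`; this is all that is used): copy
`Pool/Agent/helper66/RB/VL3.lean` and adapt (the proved row `CY2` is used) -/
def VLG_stmt : Prop := ∀ (G : Type) [CommGroup G] [Finite G] (c : G) (χ : G →* ℂˣ), χ c = -1 → (∃ i : ℕ, χ ^ 2 ^ i = 1) → ∀ (y : MonoidAlgebra ℚ G) (e : ℕ) (z : ℤ),
  2 * ∏ ψ ∈ Psi χ.ker c, evQ ψ y = 2 ^ e * (z : ℂ) → ∃ d : ℕ, Odd d ∧ IsIntegral ℤ ((d : ℂ) * (2 * evQ χ y ^ (Psi χ.ker c).card / 2 ^ e))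

/-- **CHG** (short; from VLG). CH2 of the rb project with the hypothesis `Nat.card G = 2^m` replaced by `χ^(2^i) = 1`: copy `Pool/Agent/helper46/RB/CH2.lean`, use VLG
instead of VL3 (the proved rows `fin_det`, `RAT` are used) -/
def CHG_stmt : Prop := ∀ (G : Type) [CommGroup G] [Finite G] (c : G), c * c = 1 → ∀ χ : G →* ℂˣ, χ c = -1 → (∃ i : ℕ, χ ^ 2 ^ i = 1) → ∀ (U : Type) [AddCommGroup U]
  (s : G → U →+ U) (M : AddSubgroup U) (r : ℕ) (β φ : Fin r → U →+ MonoidAlgebra ℤ G), (∀ g, ∀ u ∈ M, s g u ∈ M) → (∀ j g u, β j (s g u) = MonoidAlgebra.single g 1 *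
  β j u) → (∀ j g u, φ j (s g u) = MonoidAlgebra.single g 1 * φ j u) → (∀ j, ∀ u ∈ M, β j u ∈ Elat χ.ker c) → (∀ u ∈ M, (∀ j, β j u = 0) → u = 0) → (M.map
  (AddMonoidHom.pi β)).relIndex (AddSubgroup.pi Set.univ (fun _ : Fin r => Elat χ.ker c)) ≠ 0 → ∀ (W : Type) [AddCommGroup W] [Module (MonoidAlgebra ℚ G) W] (ι : U
  →+ W) (o f : Fin r → W →ₗ[MonoidAlgebra ℚ G] MonoidAlgebra ℚ G), (∀ g u, ι (s g u) = (MonoidAlgebra.single g 1 : MonoidAlgebra ℚ G) • ι u) → (∀ j u, o j (ι u) = zq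
  (β j u)) → (∀ j u, f j (ι u) = zq (φ j u)) → (∀ w : W, (MonoidAlgebra.single c 1 : MonoidAlgebra ℚ G) • w = -w → (∀ j, o j w = 0) → w = 0) → ∀ (u : ⋀[MonoidAlgebra
  ℚ G]^r (Wm c W)) (e : ℕ) (z : ℤ), 2 * ∏ ψ ∈ Psi χ.ker c, evQ ψ (DT (fun j => (o j).comp (Wm c W).subtype) u) = 2 ^ e * (z : ℂ) * ((M.map (AddMonoidHom.pi
  β)).relIndex (AddSubgroup.pi Set.univ (fun _ : Fin r => Elat χ.ker c)) : ℂ) → ∃ d : ℕ, Odd d ∧ IsIntegral ℤ ((d : ℂ) * (2 * evQ χ (DT (fun j => (f j).comp (Wm c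
  W).subtype) u) ^ (Psi χ.ker c).card / 2 ^ e))

/-- **CFG** (short to medium; from CHG). CF2 of the rb project with the hypothesis `Nat.card G = 2^m` replaced by `χ^(2^i) = 1`: copy `Pool/Agent/helper25/RB/CF2.lean`,
use CHG instead of CH2 (the proved rows `ORD`, `TWR`, `fin_cp2`, `fin_idm`, `r_inj`, `r_orz`, `VLU` are used) -/
def CFG_stmt : Prop := ∀ (F H : Type) [Field F] [NumberField F] [Field H] [NumberField H] [Algebra F H] [IsAbelianGalois F H] [IsTotallyReal F] [IsCMField H] (r : ℕ)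
  (D : RData F H r), ∀ (Lf : ((H ≃ₐ[F] H) →* ℂˣ) → ℂ → ℂ), isL Lf → ∀ Θ : MonoidAlgebra ℚ (H ≃ₐ[F] H), (∀ χ, evQ χ Θ = LST Lf D.S D.T χ⁻¹) → ∀ (W : Type)
  [AddCommGroup W] [Module (MonoidAlgebra ℚ (H ≃ₐ[F] H)) W] (ι : Additive (Ut F H (D.T : Set (HOS F)) (Set.range D.v)) →+ W), isQU (F := F) (Ut F H (D.T : Set (HOS
  F)) (Set.range D.v)) ι → ∀ o : Fin r → W →ₗ[MonoidAlgebra ℚ (H ≃ₐ[F] H)] MonoidAlgebra ℚ (H ≃ₐ[F] H), (∀ j (x : (Ut F H (D.T : Set (HOS F)) (Set.range D.v))), o j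
  (ι (Additive.ofMul x)) = zq (ordZ F (D.w j) ((x : Hˣ) : H))) → ∀ u : ⋀[MonoidAlgebra ℚ (H ≃ₐ[F] H)]^r (Wm D.c W), DT (fun j => (o j).comp (Wm D.c W).subtype) u = Θ
  → ∀ f : Fin r → W →ₗ[MonoidAlgebra ℚ (H ≃ₐ[F] H)] MonoidAlgebra ℚ (H ≃ₐ[F] H), (∀ i x, ∃ y : MonoidAlgebra ℤ (H ≃ₐ[F] H), f i (ι x) = zq y) → ∀ χ : (H ≃ₐ[F] H) →*
  ℂˣ, χ D.c = -1 → (∃ i : ℕ, χ ^ 2 ^ i = 1) → ∃ d : ℕ, Odd d ∧ IsIntegral ℤ ((d : ℂ) * (2 * evQ χ (DT (fun j => (f j).comp (Wm D.c W).subtype) u) ^ (Psi χ.ker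
  D.c).card / 2 ^ (finrank ℚ F * (Psi χ.ker D.c).card + D.S.card)))

/-! ### Block B. Exact formulas for `K/F` -/

/-- **KPL** (short to medium). The maximal real subfield. Adapt TWR of the rb project (`Pool/Agent/helper6/RB/TWR.lean`) with `H = K`, `B = ⊥`: `k =
IntermediateField.fixedField (Subgroup.zpowers c)` inside `K`; `c² = 1`, `c ≠ 1` (`IsCMField.complexConj_ne_one`), so `[K : k] = 2`. `k` is totally real: it is fixed by
`c` and `φ (c x) = conj (φ x)` for every embedding `φ` of `K`, and every embedding of `k` extends to `K`. `#(odd c) = |G|/2 = [k : F]` (`TWR_count` and the like) -/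
def KPL_stmt : Prop := ∀ (F K : Type) [Field F] [NumberField F] [Field K] [NumberField K] [Algebra F K] [IsAbelianGalois F K] [IsTotallyReal F] [IsCMField K] (c : K
  ≃ₐ[F] K), (∀ x : K, c x = IsCMField.complexConj K x) → ∃ (k : Type) (_ : Field k) (_ : NumberField k) (_ : Algebra F k) (_ : Algebra k K) (_ : IsScalarTower F k K)
  (_ : IsAbelianGalois F k) (_ : Algebra.IsQuadraticExtension k K) (_ : IsTotallyReal k), (∀ x : k, c (algebraMap k K x) = algebraMap k K x) ∧ c ≠ 1 ∧ finrank ℚ k =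
  finrank ℚ F * (odd c).card

/-- **PEX** (short to medium). The exact form of PRD / PR2 of the rb project without `S` (adapt `Pool/Agent/helper83/RB/PR2.lean`; the proved rows `fin_tow`, `fin_zrt`,
`fin_val` are used). `∏_{χ odd} Lf χ` satisfies the hypotheses of VAL by ZRT: `∏ Lf χ 0 · X = 2^[k:ℚ] h_K`. The factor of `p ∈ T` is `(1 - τ N p^f)^g = ∏_{q | p} (1 -
ty q N q)` by TOW at `X = N p`, and `1 - ty q N q = - ty q (N q - ty q)` as `ty q = ± 1`. So `ε = ∏_{q ∈ Tk} (- ty q)` -/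
def PEX_stmt : Prop := ∀ (F k K : Type) [Field F] [NumberField F] [Field k] [NumberField k] [Field K] [NumberField K] [Algebra F k] [Algebra k K] [Algebra F K]
  [IsScalarTower F k K] [IsAbelianGalois F k] [IsAbelianGalois F K] [Algebra.IsQuadraticExtension k K] [IsTotallyReal k] [IsCMField K] (c : K ≃ₐ[F] K), c ≠ 1 → (∀ x
  : k, c (algebraMap k K x) = algebraMap k K x) → ∀ (Lf : ((K ≃ₐ[F] K) →* ℂˣ) → ℂ → ℂ), isL Lf → ∀ (T : Finset (HOS F)) (Tk : Finset (HOS k)), (∀ q, q ∈ Tk ↔ q.under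
  (𝓞 F) ∈ T) → (∀ q ∈ Tk, ty K q ≠ 0) → ∃ ε : ℤ, (ε = 1 ∨ ε = -1) ∧ ((classNumber k : ℂ) * (IsCMField.indexRealUnits K : ℂ) * (Units.torsionOrder K : ℂ)) * ∏ χ ∈ odd
  c, LST Lf ∅ T χ = (ε : ℂ) * 2 ^ finrank ℚ k * (classNumber K : ℂ) * ∏ q ∈ Tk, ((nm q : ℂ) - (ty K q : ℂ))

/-- **RSX** (medium). RES of the rb project with equality (adapt `Pool/Agent/helper8/RB/RES.lean`: there the index is shown to be the order of a subgroup of the target;
it remains to see that everything is reached). Split case (`P, P' = c P`): for `a ∈ (𝓞 K / P)ˣ` choose an integral `y` with `y ≡ a` mod `P`, `y ≡ 1` mod `P'` (Chinese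
remainder theorem, `IsDedekindDomain.exists_...` or `Ideal.quotientInfRingEquivPiQuotient`); `x = y / c y` has `x c(x) = 1`, order 0 at `P`, `P'`, and `x ≡ a` mod `P`,
since `c y ≡ 1` mod `c P' = P`. So the index is `N q - 1`. Inert case: for an integral `y` prime to `P`, `x = y / c y ≡ y^(1 - N q)` mod `P`, as `c` acts on `𝓞 K / P`
as `y ↦ y^(N q)` (`RES_frob`, `RES_conj`); in the cyclic group of order `N q ² - 1` the elements `y^(1 - N q)` form the subgroup of order `N q + 1`. So the index is `N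
q + 1` -/
def RSX_stmt : Prop := ∀ (k K : Type) [Field k] [NumberField k] [Field K] [NumberField K] [Algebra k K] [Algebra.IsQuadraticExtension k K] (c : K ≃+* K), c ≠
  RingEquiv.refl K → (∀ x : k, c (algebraMap k K x) = algebraMap k K x) → ∀ q : HOS k, ty K q ≠ 0 → (((Ml c {P : HOS K | P.under (𝓞 k) ≠ q} {P : HOS K | P.under (𝓞
  k) = q}).relIndex (Ml c {P : HOS K | P.under (𝓞 k) ≠ q} ∅) : ℕ) : ℤ) = (nm q : ℤ) - ty K q

/-- **SRJ** (medium). Approximation. By the proved row `fin_h90` (Hilbert 90) `x₀ = y₀ / c(y₀)`. The orders of `y₀` at the primes above `q` are equal (`ord_P x₀ = 0` and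
`ord_P (c y₀) = ord_{c P} y₀` if `c P ≠ P`; there are at most two such primes, interchanged by `c`, proved row `TYP`), say `e`; `q` is not ramified, so there is `t ∈ k`
with `ord_P t = e` for `P` above `q` (`t` of order `e` at `q`; TYP: `ord P (algebraMap t) = ord q t`); replace `y₀` by `y₀ / t` (`c t = t`): now `y₀` is a unit at the
primes above `q`. By the weak approximation theorem (or the Chinese remainder theorem: `y₀` is congruent to an integral element modulo `P` at each `P` above `q`, see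
`RES_exists`) there is an integral `y ≠ 0` with `y ≡ y₀` modulo the primes above `q` and `y ≡ 1` modulo the primes above `T.erase q`. `x = y / c(y)`: `x c(x) = 1` (`c²
= 1`), unit at all primes above `T`, `≡ 1` modulo the primes above `T.erase q` (stable under `c`), and `x ≡ y₀ / c(y₀) = x₀` modulo the primes above `q` -/
def SRJ_stmt : Prop := ∀ (k K : Type) [Field k] [NumberField k] [Field K] [NumberField K] [Algebra k K] [Algebra.IsQuadraticExtension k K] [IsTotallyReal k]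
  [IsCMField K] (c : K ≃+* K), c ≠ RingEquiv.refl K → (∀ x : k, c (algebraMap k K x) = algebraMap k K x) → ∀ (T : Finset (HOS k)) (q : HOS k), q ∈ T → ty K q ≠ 0 → ∀
  x₀ ∈ Ml c {P : HOS K | P.under (𝓞 k) ≠ q} ∅, ∃ x ∈ Ml c {P : HOS K | P.under (𝓞 k) ∉ T} {P : HOS K | P.under (𝓞 k) ∈ T.erase q}, ∀ P : HOS K, P.under (𝓞 k) = q →
  P.valuation K ((x₀ : K) * (x : K)⁻¹ - 1) < 1

/-- **IAX** (medium; from RSX, SRJ). IDA of the rb project with equality, for `W` = the primes not above `T` (adapt `Pool/Agent/helper40/RB/IDA.lean`). First `[Ml c W ∅ :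
Ml c W T'] = ∏_{q ∈ T'} (N q - ty q)` for all `T' ⊆ T`, by induction on `T'` (`IDA_prod`): with `X₁ ≤ X` the groups in RSX for `q ∉ T'`, `Ml c W (T' ∪ q) = Ml c W T' ⊓
X₁`, and `[Ml c W T' : Ml c W T' ⊓ X₁] = [X : X₁]` because `Ml c W T' → X / X₁` is surjective (SRJ for `T`, `q`; `Ml c W (T.erase q) ≤ Ml c W T'`). Then in `IDA_main`
all divisibilities are equalities: the map `div` on `Ml c W ∅` has kernel exactly the roots of unity (proved row `r_krn`), so `[Ml c W ∅ : Ml c W T] = [Ml c W ∅ : Ml c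
W T μ] w_K` and `[Ml c W ∅ : Ml c W T μ] = [dM c W ∅ : dM c W T]` -/
def IAX_stmt : Prop := ∀ (k K : Type) [Field k] [NumberField k] [Field K] [NumberField K] [Algebra k K] [Algebra.IsQuadraticExtension k K] [IsTotallyReal k]
  [IsCMField K] (c : K ≃+* K), c ≠ RingEquiv.refl K → (∀ x : k, c (algebraMap k K x) = algebraMap k K x) → ∀ T : Finset (HOS k), (∀ q ∈ T, ty K q ≠ 0) → (∀ ζ ∈
  Units.torsion K, (∀ P : HOS K, P.under (𝓞 k) ∈ T → P.valuation K (((ζ : (𝓞 K)ˣ) : K) - 1) < 1) → ζ = 1) → (((dM c {P : HOS K | P.under (𝓞 k) ∉ T} {P : HOS K |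
  P.under (𝓞 k) ∈ T}).relIndex (dM c {P : HOS K | P.under (𝓞 k) ∉ T} ∅) : ℕ) : ℤ) * (Units.torsionOrder K : ℤ) = ∏ q ∈ T, ((nm q : ℤ) - ty K q)

/-- **IBX** (medium). IDB of the rb project with equality, for `W` = the primes not above `T` (adapt `Pool/Agent/helper16/RB/IDB.lean`). For `D ∈ DV c W`, `D₀ = max D 0`,
`D = D₀ - c D₀`; the class of `D₀` modulo `Pr ⊔ Inv` is a homomorphism `DV c W → Dv / (Pr ⊔ Inv)`. Surjective: a divisor `E` is equivalent modulo `Pr` to a divisor `E'`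
prime to the finitely many primes above `T` (choose `x` with `ord_P x = E(P)` for these `P`: weak approximation, e.g. products of elements of order 1 at one and 0 at
the other primes, from the Chinese remainder theorem; `E' = E - div x`), and `D = E' - c E'` is in `DV c W` with `D₀ - E'` in `Inv` (`D₀ - c D₀ = E' - c E'`). Kernel:
contained in `dM c W ∅` as in IDB; and for `D = div x`, `x ∈ Ml c W ∅`, `x = y / c y` (proved row `fin_h90`), `D = div y - c div y`, so `D₀ - div y ∈ Inv` and `D` is in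
the kernel. So `[DV c W : dM c W ∅] = [Dv : Pr ⊔ Inv]` -/
def IBX_stmt : Prop := ∀ (k K : Type) [Field k] [NumberField k] [Field K] [NumberField K] [Algebra k K] [Algebra.IsQuadraticExtension k K] [IsTotallyReal k]
  [IsCMField K] (c : K ≃+* K), c ≠ RingEquiv.refl K → (∀ x : k, c (algebraMap k K x) = algebraMap k K x) → ∀ T : Finset (HOS k), (dM c {P : HOS K | P.under (𝓞 k) ∉
  T} ∅).relIndex (DV c {P : HOS K | P.under (𝓞 k) ∉ T}) = (Pr K ⊔ Inv c).index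

/-- **IXX** (short; from IAX, IBX). As IDX of the rb project (`Pool/Agent/helper9/RB/IDX.lean`): `[DV : dM c W T] = [DV : dM c W ∅] [dM c W ∅ : dM c W T]`
(`relIndex_mul_relIndex`), IBX, IAX and the proved row `fin_amb : AMB_stmt` -/
def IXX_stmt : Prop := ∀ (k K : Type) [Field k] [NumberField k] [Field K] [NumberField K] [Algebra k K] [Algebra.IsQuadraticExtension k K] [IsTotallyReal k]
  [IsCMField K] (c : K ≃+* K), c ≠ RingEquiv.refl K → (∀ x : k, c (algebraMap k K x) = algebraMap k K x) → ∀ T : Finset (HOS k), (∀ q ∈ T, ty K q ≠ 0) → (∀ ζ ∈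
  Units.torsion K, (∀ P : HOS K, P.under (𝓞 k) ∈ T → P.valuation K (((ζ : (𝓞 K)ˣ) : K) - 1) < 1) → ζ = 1) → (((dM c {P : HOS K | P.under (𝓞 k) ∉ T} {P : HOS K |
  P.under (𝓞 k) ∈ T}).relIndex (DV c {P : HOS K | P.under (𝓞 k) ∉ T}) : ℕ) : ℤ) * (2 ^ {q : HOS k | ty K q = 0}.ncard * (classNumber k : ℤ) *
  (IsCMField.indexRealUnits K : ℤ) * (Units.torsionOrder K : ℤ)) = 2 * (classNumber K : ℤ) * ∏ q ∈ T, ((nm q : ℤ) - ty K q)

/-- **RMK** (short to medium). Ramified primes. `P.valuation (c x - x) < 1` iff `c x - x ∈ P` (for integral `x`). Let `q = P.under (𝓞 k)` and use the proved row `TYP`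
(with the `k`-automorphism given by `c`). `ty = 1`: `c P ≠ P`, so there is `x ∈ P` with `c x ∉ P` (or vice versa; `act c P = {c x}`), `P ∉ Rm c`. `ty = -1`: `N P = N q
²`; if `c x ≡ x` mod `P` for all `x` then every residue class `x` satisfies `x² - (x + c x) x + x c(x) ≡ 0` with `x + c x, x c(x) ∈ 𝓞 k`, `2 x ≡ x + c x`; the field `𝓞
K / P` is separable over `𝓞 k / q` and `c` acts on it as the nontrivial automorphism (`RES_frob` in `Pool/Agent/helper8/RB/RES.lean`: `c y ≡ y^(N q)`), while `y^(N q) =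
y` for all `y` is impossible in a field with `N q ²` elements. `ty = 0`: `N P = N q`, so `𝓞 k → 𝓞 K / P` is onto, `x ≡ a` with `a ∈ 𝓞 k`, and `c P = P`, so `c x ≡ c a =
a ≡ x`. Over every `q` with `ty K q = 0` there is exactly one `P` (TYP), so `P ↦ P.under` is a bijection of `Rm c` with `{q : ty K q = 0}`, which is finite (the
finiteness clause of the proved row `fin_pr2`/`AM1`: `AM1_stmt` contains it, `AM1 ORD TYP`) -/
def RMK_stmt : Prop := ∀ (k K : Type) [Field k] [NumberField k] [Field K] [NumberField K] [Algebra k K] [Algebra.IsQuadraticExtension k K] (c : K ≃+* K), c ≠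
  RingEquiv.refl K → (∀ x : k, c (algebraMap k K x) = algebraMap k K x) → (∀ P : HOS K, P ∈ Rm c ↔ ty K (P.under (𝓞 k)) = 0) ∧ (Rm c).ncard = {q : HOS k | ty K q =
  0}.ncard ∧ (Rm c).Finite

/-- **EXF** (medium; from KPL, PEX, IXX, RMK). KPL gives `k`. Let `Tk` be the (finite) set of the primes of `k` above `T`; `P.under (𝓞 F) ∈ T` iff `P.under (𝓞 k) ∈ Tk`
(proved row `VLU`, last clause); `ty K q ≠ 0` for `q ∈ Tk` by RMK and the hypothesis (every `q` has a prime of `K` above it). `X = h_k Q w_K ≠ 0`, `I` = the index, `t =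
#Rm`: PEX: `X ∏ = ε 2^n' h_K Π`, IXX: `I 2^t X = 2 h_K Π`; so `2 X ∏ = ε 2^n' I 2^t X`; cancel `X`; `n' = [k : ℚ] = [F : ℚ] #odd`. `I ≠ 0` since the right side of IXX
is not 0 (`N q ≥ 2`). The inclusion `dM ≤ DV`: `D = div x` with `x c(x) = 1`: `ord_{c P} x = ord_P (c x) = - ord_P x` (`c² = 1`; as in IDX/IDB) -/
def EXF_stmt : Prop := ∀ (F K : Type) [Field F] [NumberField F] [Field K] [NumberField K] [Algebra F K] [IsAbelianGalois F K] [IsTotallyReal F] [IsCMField K] (c : K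
  ≃ₐ[F] K), (∀ x : K, c x = IsCMField.complexConj K x) → ∀ (Lf : ((K ≃ₐ[F] K) →* ℂˣ) → ℂ → ℂ), isL Lf → ∀ T : Finset (HOS F), (∀ P : HOS K, P.under (𝓞 F) ∈ T → P ∉
  Rm (c : K ≃+* K)) → (∀ ζ ∈ Units.torsion K, (∀ P : HOS K, P.under (𝓞 F) ∈ T → P.valuation K (((ζ : (𝓞 K)ˣ) : K) - 1) < 1) → ζ = 1) → (Rm (c : K ≃+* K)).Finite ∧ dM
  (c : K ≃+* K) {P : HOS K | P.under (𝓞 F) ∉ T} {P : HOS K | P.under (𝓞 F) ∈ T} ≤ DV (c : K ≃+* K) {P : HOS K | P.under (𝓞 F) ∉ T} ∧ (dM (c : K ≃+* K) {P : HOS K |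
  P.under (𝓞 F) ∉ T} {P : HOS K | P.under (𝓞 F) ∈ T}).relIndex (DV (c : K ≃+* K) {P : HOS K | P.under (𝓞 F) ∉ T}) ≠ 0 ∧ ∃ ε : ℤ, (ε = 1 ∨ ε = -1) ∧ 2 * ∏ χ ∈ odd c,
  LST Lf ∅ T χ = (ε : ℂ) * 2 ^ (finrank ℚ F * (odd c).card + (Rm (c : K ≃+* K)).ncard) * ((dM (c : K ≃+* K) {P : HOS K | P.under (𝓞 F) ∉ T} {P : HOS K | P.under (𝓞
  F) ∈ T}).relIndex (DV (c : K ≃+* K) {P : HOS K | P.under (𝓞 F) ∉ T}) : ℂ)

/-! ### Block C. The new part -/

/-- **DCX** (short to medium). Pure algebra. `X = A₁ / L` is finite, `N` acts on it. Let `X₂` be its 2-part (`|X| = 2^s o`). `q` is invertible on `X₂`, and `X₂ = X₂⁰ ⊕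
X₂¹`, `X₂⁰ = ker N`, `X₂¹ = ker (N - q)`: `q x = (q x - N x) + N x` and `N (N x) = q N x`. The group `A⁰ / L ∩ A⁰`, `A⁰ = A₁ ⊓ N.ker`, is a subgroup of `X`, contained
in the kernel of `N` on `X`, and its 2-part is `X₂⁰`: for `x ∈ X₂` with `N x = 0` and a representative `a`, `q a - N a ∈ A⁰` represents `q x`. The same for `A¹ = A₁ ⊓
ker (N - q)`: for `x ∈ X₂` with `N x = q x`, `N a ∈ A¹` represents `q x`. So the 2-parts of `|X|` and of `[A⁰ : L ⊓ A⁰] [A¹ : L ⊓ A¹]` are equal -/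
def DCX_stmt : Prop := ∀ (A : Type) [AddCommGroup A] (A₁ L : AddSubgroup A) (N : A →+ A) (q : ℕ), Odd q → L ≤ A₁ → (∀ a ∈ A₁, N a ∈ A₁) → (∀ a ∈ L, N a ∈ L) → (∀ a,
  N (N a) = q • N a) → L.relIndex A₁ ≠ 0 → ∃ d₁ d₂ : ℕ, Odd d₁ ∧ Odd d₂ ∧ d₁ * L.relIndex A₁ = d₂ * (L.relIndex (A₁ ⊓ N.ker) * L.relIndex (A₁ ⊓ (N - q •
  AddMonoidHom.id A).ker))

/-- **NDV** (short to medium). `(mapDomain (act δ) D)(P) = D(act δ⁻¹ P)`; sum over the group (replace `δ` by `δ⁻¹`). `act (σ τ) = act σ ∘ act τ` (proved row `ORD`). `Nd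
(Nd D) = ∑_{δ, δ'} = |Δ| Nd D`. `DV`: `c` commutes with `δ`, `act δ` does not change the prime of `F` below. `dM`: if `D = div x` then `Nd D = div (∏_δ δ x)` (`ord (act
δ P) x = ord P (δ⁻¹ x)`, ORD) and `y = ∏_δ δ x` satisfies `y c(y) = 1`, has order 0 where all conjugates of `x` have, and is `≡ 1` modulo the primes above `T` (product
of units `≡ 1`) -/
def NDV_stmt : Prop := ∀ (F K : Type) [Field F] [NumberField F] [Field K] [NumberField K] [Algebra F K] [IsAbelianGalois F K] (Δ : Subgroup (K ≃ₐ[F] K)), (∀ (D : Dv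
  K) (P : HOS K), Nd Δ D P = ∑ δ : Δ, D (act ((δ : K ≃ₐ[F] K) : K ≃+* K) P)) ∧ (∀ D : Dv K, Nd Δ (Nd Δ D) = Nat.card Δ • Nd Δ D) ∧ (∀ (D : Dv K) (x : K), x ≠ 0 → (∀
  P, D P = ord P x) → ∀ P, Nd Δ D P = ord P (∏ δ : Δ, (δ : K ≃ₐ[F] K) x)) ∧ ∀ (c : K ≃ₐ[F] K) (V T : Set (HOS F)), (∀ D ∈ DV (c : K ≃+* K) {P : HOS K | P.under (𝓞 F)
  ∈ V}, Nd Δ D ∈ DV (c : K ≃+* K) {P : HOS K | P.under (𝓞 F) ∈ V}) ∧ ∀ D ∈ dM (c : K ≃+* K) {P : HOS K | P.under (𝓞 F) ∈ V} {P : HOS K | P.under (𝓞 F) ∈ T}, Nd Δ D ∈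
  dM (c : K ≃+* K) {P : HOS K | P.under (𝓞 F) ∈ V} {P : HOS K | P.under (𝓞 F) ∈ T}

/-- **VWX** (short). `dM c V T ≤ dM c W T` and `dM c W T ⊓ DV c V ≤ dM c V T` (if `D = div x` is in `DV c V` then `ord_P x = D P = 0` for `P ∉ V`), so `[DV c V ⊓ E : dM c
V T] = [DV c V ⊓ E : dM c W T]`, which divides `[DV c W ⊓ E : dM c W T]`, because `DV c V ⊓ E ≤ DV c W ⊓ E` (`IDA_dvd_add` in `Pool/Agent/helper40/RB/IDA.lean`) -/
def VWX_stmt : Prop := ∀ (K : Type) [Field K] [NumberField K] (c : K ≃+* K) (V W T : Set (HOS K)) (E : AddSubgroup (Dv K)), V ⊆ W → (dM c V T).relIndex (DV c V ⊓ E)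
  ∣ (dM c W T).relIndex (DV c W ⊓ E)

/-- **IVX** (medium; from NDV). `Δ` = the kernel (`= Gal(K/L)`, of prime order `q`), `A¹ = DV c W ⊓ ker (Nd Δ - q)`, `A' = DV c' W'`, `L' = dM c' W' T'`. For a prime `P'`
of `L` the primes of `K` above it form one `Δ`-orbit and have the same ramification index `e(P')`, which divides `q` (`e f g = q`:
`Ideal.ncard_primesOver_mul_ramificationIdxIn_mul_inertiaDegIn`); `ord P (algebraMap x) = e(P.under) ord (P.under) x` (proved row `VLU`). Let `j : Dv L → Dv K`, `(j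
E)(P) = e(P.under) E(P.under)`, injective, `j (div x) = div x`. (1) `j(A') ≤ A¹` (`Nd Δ (j E) = q j E`). (2) `q A¹ ≤ j(A')`: `D ∈ A¹` satisfies `δ D = D` for `δ ∈ Δ`
(`q (δ D - D) = δ (Nd D) - Nd D = 0`, `Dv K` is torsion free), so `D` is constant on the fibres of `P ↦ P.under (𝓞 L)`, and `E(P') = (q / e(P')) D(P)` has `j E = q D`,
`E ∈ A'`. (3) `dM c W T ⊓ A¹ = j(L')`: let `D = div x ∈ A¹`, `x ∈ Ml c W T`; then `div (δ x / x) = 0`, `δ x / x` is `≡ 1` modulo the primes above `T` and `(δ x / x) c(δ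
x / x) = 1`, so it is a root of unity (a unit with all absolute values 1, as in the proved row `r_krn`, or `KRN`), `= 1` by hypothesis; so `x` is fixed by `Δ =
Gal(K/L)`, `x ∈ L`, and `x ∈ Ml c' W' T'` by VLU. Conversely clear (VLU). So `[A¹ : dM c W T ⊓ A¹] = [A¹ : j(A')] [A' : L']`, where the first factor is finite and `A¹ /
j(A')` is killed by `q`, so it is a power of `q` -/
def IVX_stmt : Prop := ∀ (F L K : Type) [Field F] [NumberField F] [Field L] [NumberField L] [Field K] [NumberField K] [Algebra F L] [Algebra L K] [Algebra F K]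
  [IsScalarTower F L K] [IsAbelianGalois F L] [IsAbelianGalois F K] [IsCMField L] [IsCMField K] (c : K ≃ₐ[F] K), (∀ x : K, c x = IsCMField.complexConj K x) → ∀ q :
  ℕ, q.Prime → Nat.card (AlgEquiv.restrictNormalHom L : (K ≃ₐ[F] K) →* (L ≃ₐ[F] L)).ker = q → ∀ T : Finset (HOS F), (∀ ζ ∈ Units.torsion K, (∀ P : HOS K, P.under (𝓞
  F) ∈ T → P.valuation K (((ζ : (𝓞 K)ˣ) : K) - 1) < 1) → ζ = 1) → (dM (c : K ≃+* K) {P : HOS K | P.under (𝓞 F) ∉ T} {P : HOS K | P.under (𝓞 F) ∈ T}).relIndex (DV (c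
  : K ≃+* K) {P : HOS K | P.under (𝓞 F) ∉ T} ⊓ (Nd (AlgEquiv.restrictNormalHom L : (K ≃ₐ[F] K) →* (L ≃ₐ[F] L)).ker - q • AddMonoidHom.id (Dv K)).ker) ≠ 0 → ∃ e : ℕ,
  (dM (c : K ≃+* K) {P : HOS K | P.under (𝓞 F) ∉ T} {P : HOS K | P.under (𝓞 F) ∈ T}).relIndex (DV (c : K ≃+* K) {P : HOS K | P.under (𝓞 F) ∉ T} ⊓ (Nd
  (AlgEquiv.restrictNormalHom L : (K ≃ₐ[F] K) →* (L ≃ₐ[F] L)).ker - q • AddMonoidHom.id (Dv K)).ker) = q ^ e * (dM ((AlgEquiv.restrictNormalHom L c : L ≃ₐ[F] L) : L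
  ≃+* L) {P : HOS L | P.under (𝓞 F) ∉ T} {P : HOS L | P.under (𝓞 F) ∈ T}).relIndex (DV ((AlgEquiv.restrictNormalHom L c : L ≃ₐ[F] L) : L ≃+* L) {P : HOS L | P.under
  (𝓞 F) ∉ T})

/-- **RMT** (short). `INF_lift` (`Pool/Agent/helper31/RB/INF.lean`): if `τ ∈ Gal(L/F)` acts trivially modulo `P.under (𝓞 L)`, then there is `σ ∈ Gal(K/F)` with
restriction `τ` which acts trivially modulo `P` (membership `x ∈ P.asIdeal` versus `P.valuation x < 1`: `valuation_lt_one_iff_mem` or the like). Take `τ` = the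
restriction of `c`: `σ = c δ` with `δ` in the kernel `Δ` of odd order `q`; the automorphisms acting trivially modulo `P` form a group, so `σ^q = c^q δ^q = c` acts
trivially. Second claim: choose for every `P'` a prime `P` above it; this is an injective map `Rm (res c) → Rm c` -/
def RMT_stmt : Prop := ∀ (F L K : Type) [Field F] [NumberField F] [Field L] [NumberField L] [Field K] [NumberField K] [Algebra F L] [Algebra L K] [Algebra F K]
  [IsScalarTower F L K] [IsAbelianGalois F L] [IsAbelianGalois F K] (c : K ≃ₐ[F] K), c * c = 1 → Odd (Nat.card (AlgEquiv.restrictNormalHom L : (K ≃ₐ[F] K) →* (L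
  ≃ₐ[F] L)).ker) → (∀ P : HOS K, P.under (𝓞 L) ∈ Rm ((AlgEquiv.restrictNormalHom L c : L ≃ₐ[F] L) : L ≃+* L) → P ∈ Rm (c : K ≃+* K)) ∧ ((Rm (c : K ≃+* K)).Finite →
  (Rm ((AlgEquiv.restrictNormalHom L c : L ≃ₐ[F] L) : L ≃+* L)).ncard ≤ (Rm (c : K ≃+* K)).ncard)

/-- **UNX** (short). The inertia group of `P` is trivial: its order is the ramification index (`card_inertia_eq_ramificationIdxIn`, used in the proved rows LOC, INF),
which is 1 if `P` is unramified over `F` (`Algebra.isUnramifiedAt_iff_map_eq` / `Ideal.ramificationIdx_eq_one...`, see also the row UNT,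
`Pool/Agent/helper46/RB/UNT.lean`). Alternative: `Algebra.FormallyUnramified` of the local ring: two automorphisms which agree modulo `P` agree -/
def UNX_stmt : Prop := ∀ (F H : Type) [Field F] [NumberField F] [Field H] [NumberField H] [Algebra F H] [IsAbelianGalois F H] (P : HOS H), Algebra.IsUnramifiedAt (𝓞
  F) P.asIdeal → ∀ σ : H ≃ₐ[F] H, (∀ x : 𝓞 H, P.valuation H (σ (x : H) - (x : H)) < 1) → σ = 1

/-- **SIN** (medium). `N = |Gal(K/F)|`, `ζ = exp (2 π i / N)`. For every `ψ` and `p` the number `chv ψ p` is 0 or `ζ^k` for some `k` (`ψ(σ)^N = 1`; proved row `CHV`), and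
for `i` coprime to `N`, `chv (ψ^i) p = (chv ψ p)^i` (for `i ≥ 1`): `ψ^i` is trivial on an inertia group iff `ψ` is (`i` is invertible modulo `N`), and `CHV` (the value
at a Frobenius automorphism). So there is a polynomial `P ∈ ℤ[X]` (a product of factors `1` and `1 - X^k`) with `P(ζ^i) = ∏_{ψ ∈ X} ∏_{p ∈ S} (1 - chv (ψ^i) p)` for all
`i ≥ 1` coprime to `N`, and this is the same number `α = P(ζ)` for all these `i`, because `ψ ↦ ψ^i` is a bijection of `X`. So `α` is an algebraic integer fixed by the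
Galois group of `ℚ(ζ)/ℚ` (`IsCyclotomicExtension.autEquivPow`), or: `totient(N) α = ∑_i P(ζ^i)` is rational (the sum of the `i`-th powers of the primitive `N`-th roots
of unity is an integer), so `α` is rational and integral, hence an integer -/
def SIN_stmt : Prop := ∀ (F K : Type) [Field F] [NumberField F] [Field K] [NumberField K] [Algebra F K] [IsAbelianGalois F K] (X : Finset ((K ≃ₐ[F] K) →* ℂˣ)), (∀ ψ
  ∈ X, ∀ i : ℕ, Nat.Coprime i (Nat.card (K ≃ₐ[F] K)) → ψ ^ i ∈ X) → ∀ S : Finset (HOS F), ∃ z : ℤ, ∏ ψ ∈ X, ∏ p ∈ S, (1 - chv ψ p) = (z : ℂ)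

/-- **CM1** (medium; from EXF, DCX, NDV, IVX, VWX, RMT, SIN). `c' = res c`, `I(K) = [DV c W : dM c W T]`, `I(L)` = the same for `L`, `I⁰ = [DV c W ⊓ ker Nd : dM c W T]`.
EXF for `K`: `2 ∏_{odd c} L = ε 2^(n #odd c + t) I(K)`; EXF for `L` (`Rm c'`: by RMT no prime of `L` above `T` is in `Rm c'`, since every prime of `L` has a prime of
`K` above it; roots of unity: proved row `r_tck`; the functions `fun ψ => Lf (ψ.comp res)`: proved row `r_ltr`): `2 ∏_{odd c'} L = ε' 2^(n #odd c' + t') I(L)`. The odd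
characters of `L/F` are, after inflation, those in `Psi Δ c` (proved row `PSI` for `F, L, K`, first clause, also with `g = 1`-type functions for the number of elements:
e.g. `g = fun _ => 2` or directly), so `∏_{odd c} = ∏_{odd c \ Psi Δ c} ∏_{odd c'}` (`Psi Δ c ⊆ odd c = Psi ⊥ c`). DCX (`A₁ = DV c W`, `L = dM c W T`, `N = Nd Δ`, NDV):
`d₁ I(K) = d₂ I⁰ I¹`, IVX: `I¹ = q^e I(L)` (`I¹ ≠ 0` because `I(K) ≠ 0`). So `d₁ ∏_new L ε' 2^(t') = ± 2^(n #new + t) d₂ q^e I⁰` after cancelling `I(L) ≠ 0` and powers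
of 2; `t' ≤ t` by RMT. VWX: `I⁰ = w [DV c V ⊓ ker Nd : dM c V T]` (so this index is not 0). `LST Lf S T χ = LST Lf ∅ T χ ∏_{p ∈ S} (1 - chv χ p)`, and `∏_new ∏_S` is an
integer by SIN (`X = odd c \ Psi Δ c` is stable under `ψ ↦ ψ^i` for `i` coprime to the group order, which is even: `i` is odd, and `ψ^i` is trivial on `Δ` iff `ψ` is).
`dM c V T ≤ DV c V` as in EXF -/
def CM1_stmt : Prop := ∀ (F L K : Type) [Field F] [NumberField F] [Field L] [NumberField L] [Field K] [NumberField K] [Algebra F L] [Algebra L K] [Algebra F K]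
  [IsScalarTower F L K] [IsAbelianGalois F L] [IsAbelianGalois F K] [IsTotallyReal F] [IsCMField L] [IsCMField K] (c : K ≃ₐ[F] K), (∀ x : K, c x =
  IsCMField.complexConj K x) → (∀ x : L, (AlgEquiv.restrictNormalHom L c : L ≃ₐ[F] L) x = IsCMField.complexConj L x) → ∀ q : ℕ, q.Prime → q ≠ 2 → Nat.card
  (AlgEquiv.restrictNormalHom L : (K ≃ₐ[F] K) →* (L ≃ₐ[F] L)).ker = q → ∀ (Lf : ((K ≃ₐ[F] K) →* ℂˣ) → ℂ → ℂ), isL Lf → ∀ S T : Finset (HOS F), (∀ P : HOS K, P.under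
  (𝓞 F) ∈ T → P ∉ Rm (c : K ≃+* K)) → (∀ ζ ∈ Units.torsion K, (∀ P : HOS K, P.under (𝓞 F) ∈ T → P.valuation K (((ζ : (𝓞 K)ˣ) : K) - 1) < 1) → ζ = 1) → ∀ V : Set (HOS
  K), (∀ P ∈ V, P.under (𝓞 F) ∉ T) → dM (c : K ≃+* K) V {P : HOS K | P.under (𝓞 F) ∈ T} ≤ DV (c : K ≃+* K) V ∧ (dM (c : K ≃+* K) V {P : HOS K | P.under (𝓞 F) ∈
  T}).relIndex (DV (c : K ≃+* K) V ⊓ (Nd (AlgEquiv.restrictNormalHom L : (K ≃ₐ[F] K) →* (L ≃ₐ[F] L)).ker).ker) ≠ 0 ∧ ∃ (d : ℕ) (z : ℤ), Odd d ∧ (d : ℂ) * ∏ ψ ∈ odd c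
  \ Psi (AlgEquiv.restrictNormalHom L : (K ≃ₐ[F] K) →* (L ≃ₐ[F] L)).ker c, LST Lf S T ψ = (2 ^ finrank ℚ F) ^ (odd c \ Psi (AlgEquiv.restrictNormalHom L : (K ≃ₐ[F]
  K) →* (L ≃ₐ[F] L)).ker c).card * (z : ℂ) * ((dM (c : K ≃+* K) V {P : HOS K | P.under (𝓞 F) ∈ T}).relIndex (DV (c : K ≃+* K) V ⊓ (Nd (AlgEquiv.restrictNormalHom L :
  (K ≃ₐ[F] K) →* (L ≃ₐ[F] L)).ker).ker) : ℂ)

/-! ### Block D. The final theorem -/

/-- **TWX** (medium). A tower `F ⊂ L ⊂ K ⊂ H`: adapt TWR of the rb project (`Pool/Agent/helper6/RB/TWR.lean`) twice: `K = IntermediateField.fixedField B`, `L =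
IntermediateField.fixedField B'` inside `H`, `L ≤ K` since `B ≤ B'` (`Algebra L K` from `IntermediateField.inclusion`). `c ∉ B'`, so `c` acts nontrivially on `K` and
`L`, and both are CM: `K` is totally complex (an embedding extends to `φ` on `H`, and `conj (φ x) = φ (c x) ≠ φ x` for some `x ∈ K`), and quadratic over the totally
real fixed field of `c` (`IsCMField.ofCMExtension`; the proof of TWR gives both). The restriction of `c` is complex conjugation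
(`IsCMField.complexEmbedding_complexConj` for `H` and for `K`: `φ (c x) = conj (φ x) = φ (complexConj K x)` for an embedding `φ` of `K`, extended to `H`). The order of
the kernel: `Gal(K/F) = G/B` maps onto `Gal(L/F) = G/B'` -/
def TWX_stmt : Prop := ∀ (F H : Type) [Field F] [NumberField F] [Field H] [NumberField H] [Algebra F H] [IsAbelianGalois F H] [IsTotallyReal F] [IsCMField H] (c : H
  ≃ₐ[F] H), (∀ x : H, c x = IsCMField.complexConj H x) → ∀ B B' : Subgroup (H ≃ₐ[F] H), B ≤ B' → c ∉ B' → ∃ (L K : Type) (_ : Field L) (_ : NumberField L) (_ : Field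
  K) (_ : NumberField K) (_ : Algebra F L) (_ : Algebra L K) (_ : Algebra F K) (_ : Algebra K H) (_ : IsScalarTower F L K) (_ : IsScalarTower F K H) (_ :
  IsAbelianGalois F L) (_ : IsAbelianGalois F K) (_ : IsCMField L) (_ : IsCMField K), (AlgEquiv.restrictNormalHom K : (H ≃ₐ[F] H) →* (K ≃ₐ[F] K)).ker = B ∧
  ((AlgEquiv.restrictNormalHom L : (K ≃ₐ[F] K) →* (L ≃ₐ[F] L)).comp (AlgEquiv.restrictNormalHom K : (H ≃ₐ[F] H) →* (K ≃ₐ[F] K))).ker = B' ∧ (∀ x : K,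
  (AlgEquiv.restrictNormalHom K c : K ≃ₐ[F] K) x = IsCMField.complexConj K x) ∧ (∀ x : L, (AlgEquiv.restrictNormalHom L (AlgEquiv.restrictNormalHom K c : K ≃ₐ[F] K)
  : L ≃ₐ[F] L) x = IsCMField.complexConj L x) ∧ Nat.card (AlgEquiv.restrictNormalHom L : (K ≃ₐ[F] K) →* (L ≃ₐ[F] L)).ker * Nat.card B = Nat.card B'

/-- **PSN** (short to medium). Inflation `ψ ↦ ψ ∘ res` is a bijection of `odd (res c) \ Psi Δ (res c)` with `PsN (ker res) (res⁻¹ Δ) c` (`res` is surjective: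
`AlgEquiv.restrictNormalHom_surjective`; compare the proved row `PSI`, `Pool/Agent/helper48/RB/PSI.lean`). The last claim: `ψ ↦ ψ⁻¹` maps `PsN` to itself (`c² = 1`) -/
def PSN_stmt : Prop := ∀ (F K H : Type) [Field F] [NumberField F] [Field K] [NumberField K] [Field H] [NumberField H] [Algebra F K] [Algebra K H] [Algebra F H]
  [IsScalarTower F K H] [IsAbelianGalois F K] [IsAbelianGalois F H] (c : H ≃ₐ[F] H), c * c = 1 → ∀ (Δ : Subgroup (K ≃ₐ[F] K)) (g : ((H ≃ₐ[F] H) →* ℂˣ) → ℂ), ∏ ψ ∈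
  odd (AlgEquiv.restrictNormalHom K c : K ≃ₐ[F] K) \ Psi Δ (AlgEquiv.restrictNormalHom K c : K ≃ₐ[F] K), g (ψ.comp (AlgEquiv.restrictNormalHom K : (H ≃ₐ[F] H) →* (K
  ≃ₐ[F] K))) = ∏ ψ ∈ PsN (AlgEquiv.restrictNormalHom K : (H ≃ₐ[F] H) →* (K ≃ₐ[F] K)).ker (Δ.comap (AlgEquiv.restrictNormalHom K : (H ≃ₐ[F] H) →* (K ≃ₐ[F] K))) c, g ψ
  ∧ (odd (AlgEquiv.restrictNormalHom K c : K ≃ₐ[F] K) \ Psi Δ (AlgEquiv.restrictNormalHom K c : K ≃ₐ[F] K)).card = (PsN (AlgEquiv.restrictNormalHom K : (H ≃ₐ[F] H)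
  →* (K ≃ₐ[F] K)).ker (Δ.comap (AlgEquiv.restrictNormalHom K : (H ≃ₐ[F] H) →* (K ≃ₐ[F] K))) c).card ∧ ∀ B B' : Subgroup (H ≃ₐ[F] H), ∏ ψ ∈ PsN B B' c, g ψ⁻¹ = ∏ ψ ∈
  PsN B B' c, g ψ

/-- **CM2** (short to medium; from CM1, UNX, PSN). As CMP/CP2 of the rb project. CM1 for `F, L, K`, `c_K = res D.c`, the functions `fun ψ => Lf (ψ.comp res)` (proved row
`r_ltr`), `S = D.S`, `T = D.T`, `V` = the primes of `K` above the `v_j` (`D.hw`, `D.hvT`). The condition at `T`: if `P ∈ Rm c_K`, `P.under (𝓞 F) ∈ T`, let `P_H` be a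
prime of `H` above `P` (`VLU`); by `INF_lift` (`Pool/Agent/helper31/RB/INF.lean`) `c_K` lifts to an automorphism of `H` acting trivially modulo `P_H`, which is 1 by UNX
(`D.hram`, `D.hST`: `P_H` is unramified), so `c_K = 1`, which contradicts `IsCMField.complexConj_ne_one`. Roots of unity: `D.htor` and the proved row `r_tck`. `∏_{ψ ∈
PsN} evQ ψ Θ = ∏ LST Lf ψ⁻¹ = ∏_{PsN} LST Lf ψ = ∏_{odd c_K \ Psi Δ c_K} LST Lf_K ψ` (PSN, `r_ltr`); the kernel of the composition is `Δ.comap res` -/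
def CM2_stmt : Prop := ∀ (F L K H : Type) [Field F] [NumberField F] [Field L] [NumberField L] [Field K] [NumberField K] [Field H] [NumberField H] [Algebra F L]
  [Algebra L K] [Algebra F K] [Algebra K H] [Algebra F H] [IsScalarTower F L K] [IsScalarTower F K H] [IsAbelianGalois F L] [IsAbelianGalois F K] [IsAbelianGalois F
  H] [IsTotallyReal F] [IsCMField L] [IsCMField K] [IsCMField H] (r : ℕ) (D : RData F H r) (q : ℕ), q.Prime → q ≠ 2 → Nat.card (AlgEquiv.restrictNormalHom L : (K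
  ≃ₐ[F] K) →* (L ≃ₐ[F] L)).ker = q → (∀ x : K, (AlgEquiv.restrictNormalHom K D.c : K ≃ₐ[F] K) x = IsCMField.complexConj K x) → (∀ x : L, (AlgEquiv.restrictNormalHom
  L (AlgEquiv.restrictNormalHom K D.c : K ≃ₐ[F] K) : L ≃ₐ[F] L) x = IsCMField.complexConj L x) → ∀ (Lf : ((H ≃ₐ[F] H) →* ℂˣ) → ℂ → ℂ), isL Lf → ∀ Θ : MonoidAlgebra ℚ
  (H ≃ₐ[F] H), (∀ χ, evQ χ Θ = LST Lf D.S D.T χ⁻¹) → dM ((AlgEquiv.restrictNormalHom K D.c : K ≃ₐ[F] K) : K ≃+* K) {P : HOS K | ∃ j, P.under (𝓞 F) = (D.w j).under (𝓞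
  F)} {P : HOS K | P.under (𝓞 F) ∈ D.T} ≤ DV ((AlgEquiv.restrictNormalHom K D.c : K ≃ₐ[F] K) : K ≃+* K) {P : HOS K | ∃ j, P.under (𝓞 F) = (D.w j).under (𝓞 F)} ∧ (dM
  ((AlgEquiv.restrictNormalHom K D.c : K ≃ₐ[F] K) : K ≃+* K) {P : HOS K | ∃ j, P.under (𝓞 F) = (D.w j).under (𝓞 F)} {P : HOS K | P.under (𝓞 F) ∈ D.T}).relIndex (DV
  ((AlgEquiv.restrictNormalHom K D.c : K ≃ₐ[F] K) : K ≃+* K) {P : HOS K | ∃ j, P.under (𝓞 F) = (D.w j).under (𝓞 F)} ⊓ (Nd (AlgEquiv.restrictNormalHom L : (K ≃ₐ[F] K)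
  →* (L ≃ₐ[F] L)).ker).ker) ≠ 0 ∧ ∃ (d : ℕ) (z : ℤ), Odd d ∧ (d : ℂ) * ∏ ψ ∈ PsN (AlgEquiv.restrictNormalHom K : (H ≃ₐ[F] H) →* (K ≃ₐ[F] K)).ker
  ((AlgEquiv.restrictNormalHom L : (K ≃ₐ[F] K) →* (L ≃ₐ[F] L)).comp (AlgEquiv.restrictNormalHom K : (H ≃ₐ[F] H) →* (K ≃ₐ[F] K))).ker D.c, evQ ψ Θ = (2 ^ finrank ℚ F)
  ^ (PsN (AlgEquiv.restrictNormalHom K : (H ≃ₐ[F] H) →* (K ≃ₐ[F] K)).ker ((AlgEquiv.restrictNormalHom L : (K ≃ₐ[F] K) →* (L ≃ₐ[F] L)).comp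
  (AlgEquiv.restrictNormalHom K : (H ≃ₐ[F] H) →* (K ≃ₐ[F] K))).ker D.c).card * (z : ℂ) * ((dM ((AlgEquiv.restrictNormalHom K D.c : K ≃ₐ[F] K) : K ≃+* K) {P : HOS K |
  ∃ j, P.under (𝓞 F) = (D.w j).under (𝓞 F)} {P : HOS K | P.under (𝓞 F) ∈ D.T}).relIndex (DV ((AlgEquiv.restrictNormalHom K D.c : K ≃ₐ[F] K) : K ≃+* K) {P : HOS K | ∃
  j, P.under (𝓞 F) = (D.w j).under (𝓞 F)} ⊓ (Nd (AlgEquiv.restrictNormalHom L : (K ≃ₐ[F] K) →* (L ≃ₐ[F] L)).ker).ker) : ℂ)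

/-- **IDW** (medium; from EPX, NDV). As IDM of the rb project (`Pool/Agent/helper9/RB/IDM.lean`; the proved rows `r_bor`, `r_dve`, `ORD` are used). By DVE `D ↦ (bD F
(w_j) D)_j` is an isomorphism of `DV c_K V` with `Elat B c^r`, `B` = the kernel of `res`. `B' = Δ.comap res`. It maps `DV ⊓ ker (Nd Δ)` onto `ElX (PsN B B' c)^r`: by
EPX (second part) one must see that `(∑_{b ∈ B'} b) bD F w D = |B| bD F w (Nd Δ D)`: the coefficient at `τ` of the left side is `∑_{b ∈ B'} D(res(b⁻¹ τ) w_K) = |B| ∑_{δ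
∈ Δ} D(δ res(τ) w_K)` (each `δ` is the restriction of `|B|` elements of `B'`; `act (δ τ) = act δ ∘ act τ`), and `bD F w D' = 0` for all `w = w_j` implies `D' = 0` (DVE,
last clause, for `D' ∈ DV`; `Nd Δ D ∈ DV` by NDV). By BOR it maps `dM ⊓ ker (Nd Δ)` onto `N` (`D = div x`: `Nd Δ D (P) = ∑_δ ord (act δ P) x` by NDV) -/
def IDW_stmt : Prop := ∀ (F K H : Type) [Field F] [NumberField F] [Field K] [NumberField K] [Field H] [NumberField H] [Algebra F K] [Algebra K H] [Algebra F H]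
  [IsScalarTower F K H] [IsAbelianGalois F K] [IsAbelianGalois F H] (r : ℕ) (w : Fin r → HOS H), (∀ j, {P : HOS H | P.under (𝓞 F) = (w j).under (𝓞 F)}.ncard =
  finrank F H) → (∀ i j, (w i).under (𝓞 F) = (w j).under (𝓞 F) → i = j) → ∀ c : H ≃ₐ[F] H, c * c = 1 → ∀ (T : Set (HOS K)) (Δ : Subgroup (K ≃ₐ[F] K)), dM
  ((AlgEquiv.restrictNormalHom K c : K ≃ₐ[F] K) : K ≃+* K) {P : HOS K | ∃ j, P.under (𝓞 F) = (w j).under (𝓞 F)} T ≤ DV ((AlgEquiv.restrictNormalHom K c : K ≃ₐ[F] K)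
  : K ≃+* K) {P : HOS K | ∃ j, P.under (𝓞 F) = (w j).under (𝓞 F)} → ∀ N : AddSubgroup (Fin r → MonoidAlgebra ℤ (H ≃ₐ[F] H)), (∀ y, y ∈ N ↔ ∃ x ∈ Ml
  ((AlgEquiv.restrictNormalHom K c : K ≃ₐ[F] K) : K ≃+* K) {P : HOS K | ∃ j, P.under (𝓞 F) = (w j).under (𝓞 F)} T, (∀ P : HOS K, ∑ δ : Δ, ord (act ((δ : K ≃ₐ[F] K) :
  K ≃+* K) P) (x : K) = 0) ∧ ∀ j, y j = ordZ F (w j) (algebraMap K H (x : K))) → N.relIndex (AddSubgroup.pi Set.univ (fun _ : Fin r => ElX (PsN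
  (AlgEquiv.restrictNormalHom K : (H ≃ₐ[F] H) →* (K ≃ₐ[F] K)).ker (Δ.comap (AlgEquiv.restrictNormalHom K : (H ≃ₐ[F] H) →* (K ≃ₐ[F] K))) c))) = (dM
  ((AlgEquiv.restrictNormalHom K c : K ≃ₐ[F] K) : K ≃+* K) {P : HOS K | ∃ j, P.under (𝓞 F) = (w j).under (𝓞 F)} T).relIndex (DV ((AlgEquiv.restrictNormalHom K c : K
  ≃ₐ[F] K) : K ≃+* K) {P : HOS K | ∃ j, P.under (𝓞 F) = (w j).under (𝓞 F)} ⊓ (Nd Δ).ker)

/-- **CFX** (medium; from CHX, VLX, PSX, EPX, TWX, CM2, IDW). As CF2 of the rb project (`Pool/Agent/helper25/RB/CF2.lean`), for one character `χ` of order `2^a q^j`, `a,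
j ≥ 1`. `B = ker χ`, `B' = ker (χ^q)` (PSX: `B ≤ B'`, `D.c ∉ B'`, `|B'| = q |B|`), tower `L ⊂ K ⊂ H` from TWX, `Δ` = the kernel of `Gal(K/F) → Gal(L/F)`, of order `q`,
`B' = Δ.comap res`. `X = PsN B B' c`, `ε, N` from EPX. Apply CHX with `U = Additive (Ut ...)`, `s g` = the action of `g` on `U`, `M` = the elements `algebraMap K H x`
with `x ∈ Ml c_K V T'` and `∑_{δ ∈ Δ} ord (act δ P) x = 0` for all primes `P` of `K` (a subgroup, stable under `G`), `β_j = ordZ F (w_j)`, `φ_j` with `f_j (ι u) = zq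
(φ_j u)`. `β_j(M) ⊂ ElX X`: by EPX it is in `Elat B c` (`b x = x` for `b ∈ B`, `c x = x⁻¹`) and `(∑_{b ∈ B'} b) ordZ (w_j) x` has the coefficients `∑_{b ∈ B'} ord
(res(b⁻¹ τ) (w_j)_K) x = |B| ∑_δ ord (act δ P) x = 0` (proved row `r_bor` or as in IDW). Injectivity on `M`: `r_inj`. The index: IDW with `N = M.map (pi β)`, not 0 by
CM2. The condition on `Wm`: as in CHF/CF2 (`r_inj`). The hypothesis on `∏ evQ ψ (DT o u) = ∏ evQ ψ Θ` is CM2 (`d` odd). CHX gives `d ∏_{ψ ∈ X} evQ ψ (DT f u) = (2^n)^#X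
z'`, and VLX gives the claim -/
def CFX_stmt : Prop := ∀ (F H : Type) [Field F] [NumberField F] [Field H] [NumberField H] [Algebra F H] [IsAbelianGalois F H] [IsTotallyReal F] [IsCMField H] (r : ℕ)
  (D : RData F H r), ∀ (Lf : ((H ≃ₐ[F] H) →* ℂˣ) → ℂ → ℂ), isL Lf → ∀ Θ : MonoidAlgebra ℚ (H ≃ₐ[F] H), (∀ χ, evQ χ Θ = LST Lf D.S D.T χ⁻¹) → ∀ (W : Type)
  [AddCommGroup W] [Module (MonoidAlgebra ℚ (H ≃ₐ[F] H)) W] (ι : Additive (Ut F H (D.T : Set (HOS F)) (Set.range D.v)) →+ W), isQU (F := F) (Ut F H (D.T : Set (HOS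
  F)) (Set.range D.v)) ι → ∀ o : Fin r → W →ₗ[MonoidAlgebra ℚ (H ≃ₐ[F] H)] MonoidAlgebra ℚ (H ≃ₐ[F] H), (∀ j (x : (Ut F H (D.T : Set (HOS F)) (Set.range D.v))), o j
  (ι (Additive.ofMul x)) = zq (ordZ F (D.w j) ((x : Hˣ) : H))) → ∀ u : ⋀[MonoidAlgebra ℚ (H ≃ₐ[F] H)]^r (Wm D.c W), DT (fun j => (o j).comp (Wm D.c W).subtype) u = Θ
  → ∀ f : Fin r → W →ₗ[MonoidAlgebra ℚ (H ≃ₐ[F] H)] MonoidAlgebra ℚ (H ≃ₐ[F] H), (∀ i x, ∃ y : MonoidAlgebra ℤ (H ≃ₐ[F] H), f i (ι x) = zq y) → ∀ χ : (H ≃ₐ[F] H) →*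
  ℂˣ, χ D.c = -1 → ∀ a j q : ℕ, q.Prime → q ≠ 2 → 1 ≤ a → 1 ≤ j → orderOf χ = 2 ^ a * q ^ j → orderOf (2 : ZMod (q ^ j)) = Nat.totient (q ^ j) → ∃ d : ℕ, Odd d ∧
  IsIntegral ℤ ((d : ℂ) * (evQ χ (DT (fun j => (f j).comp (Wm D.c W).subtype) u) / 2 ^ finrank ℚ F))

/-- **FNX** (medium; from CFG, CFX, CEX, PRJ). As RBF of the rb project (`Pool/Agent/helper66/RB/RBF.lean`). First part: for every `f` apply CEX to `y = DT f u` (`c y = -
y`: proved row `ANT`; `s = |S|`, `n = [F : ℚ]`): characters of 2-power order: CFG; an odd character `χ` not of 2-power order has order `2^a' q^j` with `j ≤ b` (the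
order divides the exponent `2^a q^b`; `j ≥ 1`, and `a' ≥ 1` as `χ c = -1`), PRJ and CFX. So there is an odd `d_f` with `d_f 2^k y_σ ∈ ℤ`. Uniform denominator: proved
row `UNI`, `d` = the odd part of the number given there (as in RUB/RBF). Second part: `g₀` of order `2^m`; every element of order 2 of `G` is in `⟨g₀⟩` (a cyclic Sylow
subgroup of the commutative group `G`), so `c = g₀^(2^(m-1))`, `m ≥ 1`; the exponent of `G` divides `2^m q^b` (`|G| = 2^m l`: for `g ∈ G` the 2-part of its order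
divides `2^m`, the odd part divides `q^b`). Apply the first part with `h = m - 1`, `a = m`, `k = 0`: if `S = ∅` then `n ≥ 2` by the proved row `MNK` (with `D.hram`), `m
+ 1 ≤ n + (m - 1)`; if `S ≠ ∅`: `m 2^(m-1) + 2 ≤ (n + m - 1) 2^(m-1) + |S| + 1` as `n ≥ 1`, `|S| ≥ 1`; `m ≤ n + (m - 1)` -/
def FNX_stmt : Prop := ∀ (F H : Type) [Field F] [NumberField F] [Field H] [NumberField H] [Algebra F H] [IsAbelianGalois F H] [IsTotallyReal F] [IsCMField H] (r :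
  ℕ), 1 ≤ r → ∀ (D : RData F H r) (m l : ℕ), Nat.card (H ≃ₐ[F] H) = 2 ^ m * l → Odd l → ∀ q b : ℕ, q.Prime → q ≠ 2 → orderOf (2 : ZMod (q ^ b)) = Nat.totient (q ^ b)
  → (∀ g : H ≃ₐ[F] H, ∃ i : ℕ, g ^ (2 ^ i * q ^ b) = 1) → ∀ (Lf : ((H ≃ₐ[F] H) →* ℂˣ) → ℂ → ℂ), isL Lf → ∀ Θ : MonoidAlgebra ℚ (H ≃ₐ[F] H), (∀ χ, evQ χ Θ = LST Lf
  D.S D.T χ⁻¹) → ∀ (W : Type) [AddCommGroup W] [Module (MonoidAlgebra ℚ (H ≃ₐ[F] H)) W] (ι : Additive (Ut F H (D.T : Set (HOS F)) (Set.range D.v)) →+ W), isQU (F :=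
  F) (Ut F H (D.T : Set (HOS F)) (Set.range D.v)) ι → ∀ o : Fin r → W →ₗ[MonoidAlgebra ℚ (H ≃ₐ[F] H)] MonoidAlgebra ℚ (H ≃ₐ[F] H), (∀ j (x : (Ut F H (D.T : Set (HOS
  F)) (Set.range D.v))), o j (ι (Additive.ofMul x)) = zq (ordZ F (D.w j) ((x : Hˣ) : H))) → ∀ u : ⋀[MonoidAlgebra ℚ (H ≃ₐ[F] H)]^r (Wm D.c W), DT (fun j => (o
  j).comp (Wm D.c W).subtype) u = Θ → (∀ (a h k : ℕ) (g₀ : H ≃ₐ[F] H), (∀ g : H ≃ₐ[F] H, g ^ (2 ^ a * q ^ b) = 1) → g₀ ^ 2 ^ h = D.c → (D.S = ∅ → m + 1 ≤ finrank ℚ F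
  + h + k) → (D.S ≠ ∅ → m * 2 ^ (a - 1) + 2 ≤ (finrank ℚ F + h + k) * 2 ^ (a - 1) + D.S.card + 2 ^ (a - 1 - h)) → (l ≠ 1 → m ≤ finrank ℚ F + h + k) → ∃ d : ℕ, Odd d
  ∧ (d * 2 ^ k) • u ∈ RL D.c W ι r) ∧ ((∃ g₀ : H ≃ₐ[F] H, orderOf g₀ = 2 ^ m) → ∃ d : ℕ, Odd d ∧ d • u ∈ RL D.c W ι r)

end Pool.Agent.RMX
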